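import Pool.Agent.LibIG50.TD2

/-!
Task D: Legendre form (`leg_iso`, `exists_leg`).
-/
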