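import Pool.Agent.LibIG50.TG

/-!
Task H: descent to finite extensions of the 2-adic numbers.
-/

open scoped Classical
open WeierstrassCurve Pool.Agent.LibBH2

namespace Pool.Agent.LibIG50

/-- the value group of a finite extension is discrete -/
theorem finite_norm (M : IntermediateField ℚ_[2] L2) [FiniteDimensional ℚ_[2] M] :
    ∃ D : ℕ, 0 < D ∧ ∀ z ∈ M, z ≠ 0 → ∃ m : ℤ, ‖z‖ ^ D = (2 : ℝ) ^ m := by
  refine ⟨Module.finrank ℚ_[2] M, Module.finrank_pos, fun z hz hz0 => ?_⟩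
  set z' : M := ⟨z, hz⟩ with hz'
  have hmin : minpoly ℚ_[2] z' = minpoly ℚ_[2] z :=
    (minpoly.algebraMap_eq (B := M) (B' := L2) (algebraMap M L2).injective z').symm
  have hdvd : (minpoly ℚ_[2] z).natDegree ∣ Module.finrank ℚ_[2] M := by
    rw [← hmin]
    exact minpoly.degree_dvd (Algebra.IsIntegral.isIntegral z')
  obtain ⟨e, he⟩ := hdvd
  have hint : IsIntegral ℚ_[2] z := Algebra.IsIntegral.isIntegral z
  have hpos : 0 < (minpoly ℚ_[2] z).natDegree := minpoly.natDegree_pos hint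
  have hc : (minpoly ℚ_[2] z).coeff 0 ≠ 0 := minpoly.coeff_zero_ne_zero hint hz0
  have h1 : ‖z‖ ^ (minpoly ℚ_[2] z).natDegree = ‖(minpoly ℚ_[2] z).coeff 0‖ := by
    rw [← PadicAlgCl.spectralNorm_eq, spectralNorm.spectralNorm_eq_norm_coeff_zero_rpow]
    rw [← Real.rpow_natCast, ← Real.rpow_mul (norm_nonneg _), one_div,
      inv_mul_cancel₀ (by exact_mod_cast hpos.ne'), Real.rpow_one]
  refine ⟨(-((minpoly ℚ_[2] z).coeff 0).valuation) * e, ?_⟩
  rw [he, pow_mul, h1, Padic.norm_eq_zpow_neg_valuation hc, zpow_mul, zpow_natCast]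
  norm_num

/-- an element of `L2` fixed by all automorphisms over `M` lies in `M` -/
theorem mem_of_fixed (M : IntermediateField ℚ_[2] L2) (z : L2)
    (hz : ∀ σ : L2 →ₐ[M] L2, σ z = z) : z ∈ M := by
  have hint : IsIntegral M z := Algebra.IsIntegral.isIntegral z
  have halg : Algebra.IsAlgebraic M L2 := inferInstance
  have hac : IsAlgClosure M L2 := ⟨inferInstance, inferInstance⟩
  have hnorm : Normal M L2 := inferInstance
  have hgal : IsGalois M L2 := inferInstance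
  have h1 : z ∈ (⊥ : IntermediateField M L2) := by
    rw [InfiniteGalois.mem_bot_iff_fixed]
    intro f
    exact hz f.toAlgHom
  rw [IntermediateField.mem_bot] at h1
  obtain ⟨w, hw⟩ := h1
  rw [← hw]
  exact w.2

theorem norm_aut (M : IntermediateField ℚ_[2] L2) (σ : L2 →ₐ[M] L2) (z : L2) : ‖σ z‖ = ‖z‖ := by
  have h : minpoly ℚ_[2] ((σ.restrictScalars ℚ_[2]) z) = minpoly ℚ_[2] z :=
    minpoly.algHom_eq (σ.restrictScalars ℚ_[2]) (σ.restrictScalars ℚ_[2]).injective z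
  change minpoly ℚ_[2] (σ z) = minpoly ℚ_[2] z at h
  rw [← PadicAlgCl.spectralNorm_eq, ← PadicAlgCl.spectralNorm_eq, spectralNorm, spectralNorm, h]

/-- If a non-zero multiple of a point `(x, y)` with `‖x‖ > 1` is fixed by all automorphisms over
`M`, then `x` lies in `M`. -/
theorem abscissa_mem (M : IntermediateField ℚ_[2] L2) (V : WeierstrassCurve M) (h1 : V.a₁ = 0)
    (h3 : V.a₃ = 0) (h6 : V.a₆ = 0) (h2 : ‖(V.a₂ : L2)‖ ≤ 1) (h4 : ‖(V.a₄ : L2)‖ ≤ 1)
    (x y : L2) (h : (V⁄L2).toAffine.Nonsingular x y) (hx : 1 < ‖x‖) (c : ℤ) (hc : c ≠ 0)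
    (hfix : ∀ σ : L2 →ₐ[M] L2, Affine.Point.map (W' := V) σ
      (c • (Affine.Point.some x y h : (V⁄L2).toAffine.Point)) =
      c • (Affine.Point.some x y h : (V⁄L2).toAffine.Point)) : x ∈ M := by
  apply mem_of_fixed
  intro σ
  set R : (V⁄L2).toAffine.Point := Affine.Point.some x y h with hR
  obtain ⟨hns, hmap⟩ : ∃ hns, Affine.Point.map (W' := V) σ R =
      Affine.Point.some (σ x) (σ y) hns := ⟨_, Affine.Point.map_some σ h⟩
  have hDR : Dp R := Or.inr ⟨x, y, h, rfl, hx⟩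
  have hDs : Dp (Affine.Point.map (W' := V) σ R) :=
    Or.inr ⟨σ x, σ y, _, hmap, by rw [norm_aut]; exact hx⟩
  have e1 : (V⁄L2).a₁ = 0 := by
    change algebraMap M L2 V.a₁ = 0
    rw [h1, map_zero]
  have e3 : (V⁄L2).a₃ = 0 := by
    change algebraMap M L2 V.a₃ = 0
    rw [h3, map_zero]
  have e6 : (V⁄L2).a₆ = 0 := by
    change algebraMap M L2 V.a₆ = 0
    rw [h6, map_zero]
  have e2 : ‖(V⁄L2).a₂‖ ≤ 1 := h2
  have e4 : ‖(V⁄L2).a₄‖ ≤ 1 := h4
  have hD := dp_sub (V⁄L2) e1 e3 e6 e2 e4 _ _ hDs hDR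
  have htor : IsOfFinAddOrder (Affine.Point.map (W' := V) σ R - R) := by
    rw [isOfFinAddOrder_iff_zsmul_eq_zero]
    refine ⟨c, hc, ?_⟩
    rw [zsmul_sub, ← map_zsmul, hfix σ, sub_self]
  have hz := dp_torsionfree (V⁄L2) e1 e3 e6 e2 e4 _ hD htor
  rw [sub_eq_zero, hmap, hR] at hz
  exact (Affine.Point.some.inj hz).1

end Pool.Agent.LibIG50
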