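import Pool.Agent.LibIG50.Tower
import Pool.Agent.LibIG50.TD
import Pool.Agent.LibIG50.TH
import Pool.Agent.LibBH2.Df

/-!
Infinite rank of the group generated by `gens t W`.
-/

open scoped Classical
open WeierstrassCurve Pool.Agent.LibBH2

namespace Pool.Agent.LibIG50

theorem lg_map {F L : Type} [Field F] [Field L] (f : F →+* L) (lam : F) :
    (lg lam).map f = lg (f lam) := by
  ext <;> simp [lg]

/-- transport of a homomorphism along an equality of curves -/
theorem exists_lgHom {F L : Type} [Field F] [Field L] (f : F →+* L) (lam : F)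
    (W' : WeierstrassCurve L) (hW : (lg lam).map f = W') :
    ∃ g : (lg lam).toAffine.Point →+ W'.toAffine.Point,
      ∀ (x y : F) (h : (lg lam).toAffine.Nonsingular x y),
        ∃ h' : W'.toAffine.Nonsingular (f x) (f y),
          g (Affine.Point.some x y h) = Affine.Point.some (f x) (f y) h' := by
  subst hW
  exact ⟨Df.mHom f (lg lam), fun x y h => ⟨_, Df.mHom_some f (lg lam) h⟩⟩

theorem nonsing_of_map {F L : Type} [Field F] [Field L] (f : F →+* L) (lam : F)
    (W' : WeierstrassCurve L) (hW : (lg lam).map f = W') {x y : F}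
    (h : W'.toAffine.Nonsingular (f x) (f y)) : (lg lam).toAffine.Nonsingular x y := by
  subst hW
  exact (Affine.map_nonsingular (lg lam) f.injective x y).1 h

/-- version of `abscissa_mem` with coordinates -/
theorem abscissa_mem2 (M : IntermediateField ℚ_[2] L2) (lam : M) (hn : ‖(lam : L2)‖ ≤ 1)
    (x y : L2) (h : (lg (lam : L2)).toAffine.Nonsingular x y) (hx : 1 < ‖x‖) (c : ℤ) (hc : c ≠ 0)
    (hcoord : ∀ (u w : L2) (h' : (lg (lam : L2)).toAffine.Nonsingular u w),
      c • (Affine.Point.some x y h : (lg (lam : L2)).toAffine.Point) = Affine.Point.some u w h' →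
        u ∈ M ∧ w ∈ M) : x ∈ M := by
  have hV : (lg lam)⁄L2 = lg (lam : L2) := by
    rw [baseChange, lg_map]; rfl
  revert h
  rw [← hV]
  intro h hcoord
  refine abscissa_mem M (lg lam) rfl rfl rfl ?_ hn x y h hx c hc ?_
  · change ‖((-(1 + lam) : M) : L2)‖ ≤ 1
    push_cast
    rw [norm_neg]
    refine (IsUltrametricDist.norm_add_le_max _ _).trans ?_
    rw [norm_one]
    exact max_le le_rfl hn
  · intro σ
    rcases hR : c • (Affine.Point.some x y h : ((lg lam)⁄L2).toAffine.Point) with _ | ⟨u, w, h'⟩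
    · exact map_zero _
    · obtain ⟨hu, hw⟩ := hcoord u w h' hR
      rw [Affine.Point.map_some]
      simp only [Affine.Point.some.injEq]
      exact ⟨σ.commutes ⟨u, hu⟩, σ.commutes ⟨w, hw⟩⟩

/-- coordinates of a point -/
def crd {k : Type} [Field k] {W : WeierstrassCurve k} : W.toAffine.Point → Set k
  | .zero => ∅
  | .some x y _ => {x, y}

theorem crd_finite {k : Type} [Field k] {W : WeierstrassCurve k} (P : W.toAffine.Point) :
    (crd P).Finite := by
  rcases P with _ | ⟨x, y, h⟩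
  · exact Set.finite_empty
  · exact Set.toFinite {x, y}

theorem span_coord_aux {M : Type} [Field M] (i : M →+* L2) (lam : Qb) (l : M) (hl : i l = jj lam)
    (s : Set (lg lam).toAffine.Point) (hs : ∀ R ∈ s, ∀ u ∈ crd R, ∃ m, i m = jj u)
    (R : (lg lam).toAffine.Point) (hR : R ∈ Submodule.span ℤ s) :
    ∀ u ∈ crd R, ∃ m, i m = jj u := by
  obtain ⟨g, hg⟩ := exists_lgHom jj lam (lg (jj lam)) (lg_map _ _)
  have hV : (lg l).map i = lg (jj lam) := by rw [lg_map, hl]
  obtain ⟨e, he⟩ := exists_lgHom i l (lg (jj lam)) hV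
  have hmem : ∀ R ∈ Submodule.span ℤ s, ∃ S, e S = g R := by
    intro R hR
    induction hR using Submodule.span_induction with
    | mem R hR =>
      rcases R with _ | ⟨x, y, h⟩
      · exact ⟨0, by rw [map_zero]; exact (map_zero g).symm⟩
      · obtain ⟨h', e1⟩ := hg x y h
        obtain ⟨mx, hx⟩ := hs _ hR x (by simp [crd])
        obtain ⟨my, hy⟩ := hs _ hR y (by simp [crd])
        have h2 : (lg l).toAffine.Nonsingular mx my :=
          nonsing_of_map i _ _ hV (by rw [hx, hy]; exact h')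
        obtain ⟨h3, e2⟩ := he _ _ h2
        refine ⟨_, e2.trans (Eq.trans ?_ e1.symm)⟩
        simp only [Affine.Point.some.injEq]
        exact ⟨hx, hy⟩
    | zero => exact ⟨0, by rw [map_zero, map_zero]⟩
    | add R S _ _ hR hS =>
      obtain ⟨R', hR'⟩ := hR
      obtain ⟨S', hS'⟩ := hS
      exact ⟨R' + S', by rw [map_add, map_add, hR', hS']⟩
    | smul t R _ hR =>
      obtain ⟨R', hR'⟩ := hR
      exact ⟨t • R', by rw [map_zsmul, map_zsmul, hR']⟩
  obtain ⟨S, hS⟩ := hmem R hR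
  rcases R with _ | ⟨x, y, h⟩
  · intro u hu
    exact absurd hu (Set.notMem_empty u)
  · obtain ⟨h', e1⟩ := hg x y h
    rw [e1] at hS
    rcases S with _ | ⟨x', y', h''⟩
    · have : e 0 = 0 := map_zero e
      rw [show (Affine.Point.zero : (lg l).toAffine.Point) = 0 from rfl, this] at hS
      exact absurd hS.symm (by simp)
    · obtain ⟨h3, e2⟩ := he _ _ h''
      rw [e2] at hS
      simp only [Affine.Point.some.injEq] at hS
      intro u hu
      rcases hu with rfl | hu
      · exact ⟨x', hS.1⟩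
      · rw [Set.mem_singleton_iff] at hu
        rw [hu]
        exact ⟨y', hS.2⟩

/-- If all points of `s` have coordinates in `M`, then so have all points in the span. -/
theorem span_coord (M : IntermediateField ℚ_[2] L2) (lam : Qb) (hlam : jj lam ∈ M)
    (s : Set (lg lam).toAffine.Point) (hs : ∀ R ∈ s, ∀ u ∈ crd R, jj u ∈ M)
    (R : (lg lam).toAffine.Point) (hR : R ∈ Submodule.span ℤ s) :
    ∀ u ∈ crd R, jj u ∈ M := by
  intro u hu
  obtain ⟨m, hm⟩ := span_coord_aux (algebraMap M L2) lam ⟨jj lam, hlam⟩ rfl s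
    (fun R hR u hu => ⟨⟨jj u, hs R hR u hu⟩, rfl⟩) R hR u hu
  rw [← hm]
  exact m.2

/-- the norm of the quotient of two abscissas -/
theorem ratio_norm {A B t X Y : Qb} (hA : A ≠ 0) (hB : B ≠ 0) (ht : 32 ≤ ‖jj t‖)
    (hX : ‖jj (X / (A * t) - 1)‖ ≤ 1 / ‖jj t‖) (hY : ‖jj (Y / (B * t) - 1)‖ ≤ 1 / ‖jj t‖)
    (hlo : 1 / 32 < ‖jj (A / B - 1)‖) (hhi : ‖jj (A / B - 1)‖ < 1) :
    Y ≠ 0 ∧ ‖jj (X / Y - 1)‖ = ‖jj (A / B - 1)‖ := by
  have htpos : 0 < ‖jj t‖ := by linarith
  have ht0 : t ≠ 0 := by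
    rintro rfl
    rw [map_zero, norm_zero] at htpos
    exact lt_irrefl _ htpos
  have h32 : 1 / ‖jj t‖ ≤ 1 / 32 := one_div_le_one_div_of_le (by norm_num) ht
  set e := X / (A * t) - 1 with he
  set f := Y / (B * t) - 1 with hf
  have hXe : X = A * t * (1 + e) := by rw [he]; field_simp; ring
  have hYf : Y = B * t * (1 + f) := by rw [hf]; field_simp; ring
  have hf1 : ‖jj f‖ < 1 := by linarith
  have h1f : ‖jj (1 + f)‖ = 1 := norm_one_add hf1
  have h1f0 : 1 + f ≠ 0 := one_add_ne h1f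
  have hY0 : Y ≠ 0 := by
    rw [hYf]; exact mul_ne_zero (mul_ne_zero hB ht0) h1f0
  refine ⟨hY0, ?_⟩
  have hdecomp : X / Y - 1 = (A / B - 1) + (A / B) * ((e - f) / (1 + f)) := by
    rw [hXe, hYf]
    field_simp
    ring
  have hAB : ‖jj (A / B)‖ = 1 := by
    have h1 : A / B = 1 + (A / B - 1) := by ring
    rw [h1]
    exact norm_one_add hhi
  have h2 : ‖jj ((A / B) * ((e - f) / (1 + f)))‖ ≤ 1 / 32 := by
    rw [map_mul, norm_mul, hAB, one_mul, map_div₀, norm_div, h1f, div_one, map_sub]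
    rw [sub_eq_add_neg]
    refine (IsUltrametricDist.norm_add_le_max _ _).trans (max_le ?_ ?_)
    · linarith
    · rw [norm_neg]; linarith
  rw [hdecomp, map_add]
  have h3 : ‖jj (A / B - 1)‖ ≠ ‖jj ((A / B) * ((e - f) / (1 + f)))‖ := by
    intro h4
    rw [← h4] at h2
    linarith
  rw [IsUltrametricDist.norm_add_eq_max_of_norm_ne_norm h3, max_eq_left (by linarith)]

theorem Good.sq_ne {a : Qb} (h : Good a) : a ^ 2 ≠ 1 := by
  intro h1
  have h2 : (a - 1) * (a + 1) = 0 := by linear_combination h1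
  rcases mul_eq_zero.1 h2 with h3 | h3
  · exact h.2.1 (sub_eq_zero.1 h3)
  · exact h.2.2.1 (eq_neg_of_add_eq_zero_left h3)

theorem gens_rank (W : WeierstrassCurve Qb) [W.IsElliptic] (t : Qb) (ht : 32 ≤ ‖jj t‖)
    (s : Set W.toAffine.Point) (hs : s.Finite) :
    ∃ R ∈ gens t W, ∀ c : ℤ, c ≠ 0 → c • R ∉ Submodule.span ℤ s := by
  by_contra hcon
  push Not at hcon
  obtain ⟨κ, hκ0, hκ1, hκm, hκn, hκp, g, hg⟩ := exists_leg W
  obtain ⟨κ', C, f, hf, hκ'0, hlo, hhi⟩ := base_tower κ ⟨hκ0, hκ1, hκm, hκn, hκp⟩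
  obtain ⟨ω, hω1, hω2, htow⟩ := two_towers κ' hκ'0 hlo hhi
  -- the field
  set s' : Set (lg (κ ^ 2)).toAffine.Point := g.symm '' s with hs'
  have hs'fin : s'.Finite := hs.image _
  set T : Set L2 := insert (jj (κ ^ 2)) (jj '' (⋃ R ∈ s', crd R)) with hT
  have hTfin : T.Finite :=
    ((hs'fin.biUnion (fun R _ => crd_finite R)).image _).insert _
  have := hTfin.to_subtype
  let M := IntermediateField.adjoin ℚ_[2] T
  have hsub : T ⊆ M := IntermediateField.subset_adjoin ℚ_[2] T
  have hfd : FiniteDimensional ℚ_[2] M :=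
    IntermediateField.finiteDimensional_adjoin
      (fun x _ => (Algebra.IsAlgebraic.isAlgebraic (R := ℚ_[2]) x).isIntegral)
  have hlamM : jj (κ ^ 2) ∈ M := hsub (Set.mem_insert _ _)
  have hsM : ∀ R ∈ s', ∀ u ∈ crd R, jj u ∈ M := fun R hR u hu =>
    hsub (Set.mem_insert_of_mem _ ⟨u, Set.mem_biUnion hR hu, rfl⟩)
  have hlamn : ‖jj (κ ^ 2)‖ ≤ 1 := by
    rw [map_pow, norm_pow]
    exact pow_le_one₀ (norm_nonneg _) hκn
  have ht1 : 1 < ‖jj t‖ := by linarith
  -- every deep image has its abscissa in `M`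
  have habs : ∀ (a D : Qb) (F : (lg (a ^ 2)).toAffine.Point → (lg (κ ^ 2)).toAffine.Point),
      Good a → IsDeep (a ^ 2) (κ ^ 2) D F → ∃ X : Qb, ‖jj (X / (D * t) - 1)‖ ≤ 1 / ‖jj t‖ ∧
        jj X ∈ M := by
    intro a D F ha hF
    have hell : (lg (a ^ 2)).toAffine.Δ ≠ 0 := by
      have h1 : a ^ 2 ≠ 0 := pow_ne_zero 2 ha.1
      have h2 : a ^ 2 ≠ 1 := ha.sq_ne
      have h3 : (lg (a ^ 2)).toAffine.Δ = 16 * (a ^ 2) ^ 2 * (a ^ 2 - 1) ^ 2 := by
        simp only [lg, WeierstrassCurve.Δ, WeierstrassCurve.b₂, WeierstrassCurve.b₄,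
          WeierstrassCurve.b₆, WeierstrassCurve.b₈]
        ring
      rw [h3]
      exact mul_ne_zero (mul_ne_zero (by norm_num) (pow_ne_zero 2 h1))
        (pow_ne_zero 2 (sub_ne_zero.2 h2))
    obtain ⟨y, hy⟩ := IsAlgClosed.exists_pow_nat_eq (t * (t - 1) * (t - a ^ 2)) two_pos
    have hns : (lg (a ^ 2)).toAffine.Nonsingular t y := by
      apply (Affine.equation_iff_nonsingular_of_Δ_ne_zero hell).1
      rw [Affine.equation_iff]
      simp only [lg]
      linear_combination hy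
    obtain ⟨X, Y, H, e1, e2⟩ := hF.asym t y hns ht1
    refine ⟨X, e2, ?_⟩
    have hmem : g (F (Affine.Point.some t y hns)) ∈ gens t W :=
      ⟨a ^ 2, y, hns, g ∘ F, pow_ne_zero 2 ha.1, ha.sq_ne, hg.comp hF.alg, rfl⟩
    obtain ⟨c, hc0, hc⟩ := hcon _ hmem
    rw [e1] at hc
    have hc' : c • (Affine.Point.some X Y H : (lg (κ ^ 2)).toAffine.Point) ∈
        Submodule.span ℤ s' := by
      have h5 := Submodule.mem_map_of_mem (f := g.symm.toAddMonoidHom.toIntLinearMap) hc
      rw [Submodule.map_span] at h5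
      have h6 : g.symm.toAddMonoidHom.toIntLinearMap (c • g (Affine.Point.some X Y H)) =
          c • (Affine.Point.some X Y H : (lg (κ ^ 2)).toAffine.Point) := by
        rw [map_zsmul]
        congr 1
        exact g.symm_apply_apply _
      rw [h6] at h5
      exact h5
    have hco := span_coord M (κ ^ 2) hlamM s' hsM _ hc'
    -- norm of `X`
    have hXn : 1 < ‖jj X‖ := by
      have hD0 : D ≠ 0 := by
        rintro rfl
        have := hF.one_le
        rw [map_zero, norm_zero] at this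
        linarith
      have ht0 : t ≠ 0 := by
        rintro rfl
        rw [map_zero, norm_zero] at ht1
        linarith
      have h32 : 1 / ‖jj t‖ < 1 := by
        rw [div_lt_one (by linarith)]; exact ht1
      have h7 := norm_one_add (lt_of_le_of_lt e2 h32)
      have h8 : X = D * t * (1 + (X / (D * t) - 1)) := by
        field_simp
        ring
      rw [h8, map_mul, norm_mul, h7, mul_one, map_mul, norm_mul]
      calc (1 : ℝ) < ‖jj t‖ := ht1
        _ ≤ ‖jj D‖ * ‖jj t‖ := le_mul_of_one_le_left (norm_nonneg _) hF.one_le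
    -- transport to `L2`
    obtain ⟨gg, hgg⟩ := exists_lgHom jj (κ ^ 2) (lg (jj (κ ^ 2))) (lg_map _ _)
    obtain ⟨H', e3⟩ := hgg X Y H
    refine abscissa_mem2 M ⟨jj (κ ^ 2), hlamM⟩ hlamn (jj X) (jj Y) H' hXn c hc0 ?_
    intro u w h' hu
    have h9 : gg (c • (Affine.Point.some X Y H : (lg (κ ^ 2)).toAffine.Point)) =
        Affine.Point.some u w h' := by
      rw [map_zsmul, e3]; exact hu
    rcases hR : c • (Affine.Point.some X Y H : (lg (κ ^ 2)).toAffine.Point) with _ | ⟨X₁, Y₁, H₁⟩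
    · rw [hR, show (Affine.Point.zero : (lg (κ ^ 2)).toAffine.Point) = 0 from rfl, map_zero] at h9
      exact absurd h9.symm (by simp)
    · rw [hR] at hco h9
      obtain ⟨H₂, e4⟩ := hgg X₁ Y₁ H₁
      rw [e4] at h9
      simp only [Affine.Point.some.injEq] at h9
      rw [← h9.1, ← h9.2]
      exact ⟨hco X₁ (by simp [crd]), hco Y₁ (by simp [crd])⟩
  -- discreteness
  obtain ⟨D, hD, hdisc⟩ := finite_norm M
  have key : ∀ n : ℕ, ∃ l : ℤ, ω ^ D = ((2 : ℝ) ^ l) ^ (2 ^ n) := by
    intro n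
    obtain ⟨a, b, A, B, F, G, ha, hb, hF, hG, hAB⟩ := htow n
    have hA0 : A ≠ 0 := by
      rintro rfl
      have := hF.one_le
      rw [map_zero, norm_zero] at this
      linarith
    have hB0 : B ≠ 0 := by
      rintro rfl
      have := hG.one_le
      rw [map_zero, norm_zero] at this
      linarith
    have hC0 : C ≠ 0 := by
      rintro rfl
      have := hf.one_le
      rw [map_zero, norm_zero] at this
      linarith
    obtain ⟨X, hX, hXM⟩ := habs a _ _ ha (hf.comp hF)
    obtain ⟨Y, hY, hYM⟩ := habs b _ _ hb (hf.comp hG)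
    have hr : C * A / (C * B) = A / B := mul_div_mul_left _ _ hC0
    have hub : 8 * ‖jj (A / B - 1)‖ < 1 := by
      by_contra hge
      push Not at hge
      have := one_le_pow₀ hge (n := 2 ^ n)
      linarith
    have hlb : 1 / 4 < 8 * ‖jj (A / B - 1)‖ := by
      have h1 : (8 * ‖jj (A / B - 1)‖) ^ (2 ^ n) ≤ 8 * ‖jj (A / B - 1)‖ :=
        pow_le_of_le_one (by positivity) hub.le (by positivity)
      linarith
    obtain ⟨hY0, hz⟩ := ratio_norm (mul_ne_zero hC0 hA0) (mul_ne_zero hC0 hB0) ht hX hY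
      (by rw [hr]; linarith) (by rw [hr]; linarith)
    rw [hr] at hz
    have hzM : jj (X / Y - 1) ∈ M := by
      rw [map_sub, map_div₀, map_one]
      exact M.sub_mem (M.div_mem hXM hYM) M.one_mem
    have hz0 : jj (X / Y - 1) ≠ 0 := by
      intro h0
      rw [h0, norm_zero] at hz
      rw [← hz] at hlb
      norm_num at hlb
    obtain ⟨m, hm⟩ := hdisc _ hzM hz0
    refine ⟨m + 3 * D, ?_⟩
    rw [← hAB, ← pow_mul, mul_comm (2 ^ n) D, pow_mul, mul_pow, ← hz, hm]
    congr 1
    rw [zpow_add₀ (by norm_num), zpow_mul]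
    norm_num
    rw [mul_comm]
  -- contradiction
  have hωD : 0 < ω ^ D := pow_pos (by linarith) D
  have hωD1 : ω ^ D < 1 := pow_lt_one₀ (by linarith) hω2 hD.ne'
  obtain ⟨n, hn⟩ := exists_pow_lt_of_lt_one hωD (show (1 / 2 : ℝ) < 1 by norm_num)
  obtain ⟨l, hl⟩ := key n
  have hl1 : (2 : ℝ) ^ l < 1 := by
    by_contra hge
    push Not at hge
    have := one_le_pow₀ hge (n := 2 ^ n)
    linarith
  have hl2 : l ≤ -1 := by
    by_contra hge
    push Not at hge
    have : 0 ≤ l := by omega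
    have := one_le_zpow₀ (show (1 : ℝ) ≤ 2 by norm_num) this
    linarith
  have h3 : (2 : ℝ) ^ l ≤ 1 / 2 := by
    have := zpow_le_zpow_right₀ (show (1 : ℝ) ≤ 2 by norm_num) hl2
    rw [zpow_neg_one] at this
    linarith
  have h4 : ((2 : ℝ) ^ l) ^ (2 ^ n) ≤ (1 / 2) ^ (2 ^ n) := pow_le_pow_left₀ (by positivity) h3 _
  have h5 : (1 / 2 : ℝ) ^ (2 ^ n) ≤ (1 / 2) ^ n :=
    pow_le_pow_of_le_one (by norm_num) (by norm_num) Nat.lt_two_pow_self.le
  rw [← hl] at h4
  linarith

end Pool.Agent.LibIG50
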