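import Pool.Agent.LibIG50.Base
import Pool.Agent.LibBH2.KW

/-!
Task B: points with the same abscissa on Legendre curves.
-/

open scoped Classical
open WeierstrassCurve Pool.Agent.LibBH2 Polynomial

namespace Pool.Agent.LibIG50

variable {k : Type} [Field k]

theorem lg_b₂ (lam : k) : (lg lam).b₂ = -4 * (1 + lam) := by
  simp only [lg, WeierstrassCurve.b₂]; ring

theorem lg_b₄ (lam : k) : (lg lam).b₄ = 2 * lam := by
  simp only [lg, WeierstrassCurve.b₄]; ring

theorem lg_b₆ (lam : k) : (lg lam).b₆ = 0 := by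
  simp only [lg, WeierstrassCurve.b₆]; ring

theorem lg_Δ (lam : k) : (lg lam).Δ = 16 * lam ^ 2 * (lam - 1) ^ 2 := by
  simp only [lg, WeierstrassCurve.Δ, WeierstrassCurve.b₂, WeierstrassCurve.b₄,
    WeierstrassCurve.b₆, WeierstrassCurve.b₈]
  ring

theorem lg_elliptic [CharZero k] {lam : k} (h0 : lam ≠ 0) (h1 : lam ≠ 1) :
    (lg lam).IsElliptic := by
  refine ⟨isUnit_iff_ne_zero.2 ?_⟩
  rw [lg_Δ]
  exact mul_ne_zero (mul_ne_zero (by norm_num) (pow_ne_zero 2 h0))
    (pow_ne_zero 2 (sub_ne_zero.2 h1))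

theorem lg_eqn {lam x y : k} (h : (lg lam).toAffine.Nonsingular x y) :
    y ^ 2 = x * (x - 1) * (x - lam) := by
  have h1 := (Affine.equation_iff _ _).1 h.1
  simp only [lg] at h1
  linear_combination h1

theorem zc_self_torsion [CharZero k] [IsAlgClosed k] {W : WeierstrassCurve k} [W.IsElliptic]
    (P : W.toAffine.Point) : 2 • (zc P P : CH0 W W) = 0 := by
  apply two_zc_of
  let M : Mor W W W := ⟨genPt W, genPt W, id, id, fun v _ h => ⟨h, h⟩⟩
  exact M.vert P

/-- Two points with the same abscissa `t` on `y ^ 2 = x (x - 1) (x - lam)` and on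
`y ^ 2 = x (x - 1) (x - mu)`: the zero-cycle `z(P, Q)` is torsion. -/
theorem lg_zc [CharZero k] [IsAlgClosed k] {lam mu : k} (hl0 : lam ≠ 0) (hl1 : lam ≠ 1)
    (hm0 : mu ≠ 0) (hm1 : mu ≠ 1) {t y y' : k} (h : (lg lam).toAffine.Nonsingular t y)
    (h' : (lg mu).toAffine.Nonsingular t y') :
    IsOfFinAddOrder (zc (Affine.Point.some t y h) (Affine.Point.some t y' h') :
      CH0 (lg lam) (lg mu)) := by
  have hE₁ : (lg lam).IsElliptic := lg_elliptic hl0 hl1
  have hE₂ : (lg mu).IsElliptic := lg_elliptic hm0 hm1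
  refine isOfFinAddOrder_iff_nsmul_eq_zero.2 ⟨2, two_pos, ?_⟩
  have e1 := lg_eqn h
  have e2 := lg_eqn h'
  by_cases hlm : lam = mu
  · subst hlm
    have h1 : y' ^ 2 = y ^ 2 := by rw [e1, e2]
    rcases sq_eq_sq_iff_eq_or_eq_neg.1 h1 with h2 | h2
    · subst h2
      exact zc_self_torsion _
    · have h3 : (Affine.Point.some t y' h' : (lg lam).toAffine.Point) =
          - Affine.Point.some t y h := by
        rw [Affine.Point.neg_some]
        congr 1
        rw [Affine.negY, h2]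
        simp [lg]
      rw [h3, zc_neg_right, smul_neg, zc_self_torsion, neg_zero]
  by_cases hy : y = 0
  · exact two_zc_of_torsion_left _ _ (two_nsmul_eq_zero_of h (by simp [lg, hy]))
  by_cases hy' : y' = 0
  · rw [← zc_nsmul_right, two_nsmul_eq_zero_of h' (by simp [lg, hy'])]
    exact map_zero (zHom (lg lam) (lg mu) _)
  apply two_zc_of
  have htl : t - lam ≠ 0 := by
    intro h0
    apply hy
    rw [h0, mul_zero] at e1
    exact pow_eq_zero_iff two_ne_zero |>.1 e1
  obtain ⟨s, hs⟩ : ∃ s, s = y' / y := ⟨_, rfl⟩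
  have hs0 : s ≠ 0 := by rw [hs]; exact div_ne_zero hy' hy
  have hsy : y' = s * y := by rw [hs, div_mul_cancel₀ _ hy]
  have hs2 : s ^ 2 * (t - lam) = t - mu := by
    have ht : t * (t - 1) ≠ 0 := by
      intro h0
      apply hy
      rw [h0, zero_mul] at e1
      exact pow_eq_zero_iff two_ne_zero |>.1 e1
    apply mul_left_cancel₀ ht
    rw [hsy] at e2
    linear_combination e2 - s ^ 2 * e1
  have hlm' : lam - mu = (t - lam) * (s ^ 2 - 1) := by linear_combination - hs2
  have hs1 : s ^ 2 - 1 ≠ 0 := by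
    intro h0
    rw [h0, mul_zero] at hlm'
    exact hlm (sub_eq_zero.1 hlm')
  have hA : lam * s ^ 2 - mu = t * (s ^ 2 - 1) := by linear_combination - hs2
  have hB : (lam - 1) * s ^ 2 - (mu - 1) = (t - 1) * (s ^ 2 - 1) := by linear_combination - hs2
  set M : k[X] := X ^ 2 - 1 with hM
  set F : k[X] := C (lam - mu) * M * (C lam * X ^ 2 - C mu) * (C (lam - 1) * X ^ 2 - C (mu - 1))
    with hF
  have hMs : M.eval s = s ^ 2 - 1 := by simp [hM]
  have hM0 : M.eval 0 = -1 := by simp [hM]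
  have hMne : M.eval s ≠ 0 := by rw [hMs]; exact hs1
  have hMr : toRF M ≠ 0 := toRF_ne_zero (ne_zero_of_eval hMne)
  have hMr' : toRF M = RatFunc.X ^ 2 - 1 := by
    rw [hM]; simp only [← toRF_X, toRF, map_sub, map_pow, map_one]
  have mul' : ∀ P Q : k[X], toRF (P * Q) = toRF P * toRF Q := fun P Q => by simp [toRF]
  have pow' : ∀ (P : k[X]) (n : ℕ), toRF (P ^ n) = toRF P ^ n := fun P n => by simp [toRF]
  have sub' : ∀ P Q : k[X], toRF (P - Q) = toRF P - toRF Q := fun P Q => by simp [toRF]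
  have two' : toRF (2 : k[X]) = 2 := map_ofNat _ 2
  have one' : toRF (1 : k[X]) = 1 := map_one _
  have e4' : algebraMap k (RatFunc k) 4 = 4 := map_ofNat _ 4
  have e2' : algebraMap k (RatFunc k) 2 = 2 := map_ofNat _ 2
  have hF0 : F.eval 0 = mu * (mu - 1) * (mu - lam) := by
    simp only [hF, eval_mul, eval_sub, eval_pow, eval_X, eval_C, hM0]
    ring
  have hF0ne : F.eval 0 ≠ 0 := by
    rw [hF0]
    exact mul_ne_zero (mul_ne_zero hm0 (sub_ne_zero.2 hm1)) (sub_ne_zero.2 (Ne.symm hlm))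
  obtain ⟨y₁, hy₁⟩ := IsAlgClosed.exists_pow_nat_eq (F.eval 0) two_pos
  have hy₁0 : y₁ ≠ 0 := by
    rintro rfl
    rw [zero_pow two_ne_zero] at hy₁
    exact hF0ne hy₁.symm
  have hFs : F.eval s = (y * (s ^ 2 - 1) ^ 2) ^ 2 := by
    simp only [hF, eval_mul, eval_sub, eval_pow, eval_X, eval_C, hMs]
    rw [hA, hB, hlm', mul_pow, e1]
    ring
  have hq₁ : (lg lam).toAffine.Nonsingular mu y₁ := by
    apply (Affine.equation_iff_nonsingular_of_Δ_ne_zero (W := lg lam)
      (WeierstrassCurve.isUnit_Δ _).ne_zero).1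
    rw [Affine.equation_iff]
    rw [hF0] at hy₁
    simp only [lg]
    linear_combination hy₁
  have hq₂ : (lg mu).toAffine.Nonsingular mu 0 := by
    apply (Affine.equation_iff_nonsingular_of_Δ_ne_zero (W := lg mu)
      (WeierstrassCurve.isUnit_Δ _).ne_zero).1
    rw [Affine.equation_iff]
    simp only [lg]
    ring
  have key := family_rel (W₁ := lg lam) (W₂ := lg mu) F
    (toRF (C lam * X ^ 2 - C mu) / toRF M) (toRF 2 / toRF (M ^ 2))
    (toRF (C lam * X ^ 2 - C mu) / toRF M) (toRF (2 * X) / toRF (M ^ 2))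
    (by
      simp only [hF, mul', pow', sub', two', one', toRF_X, toRF_C, lg_b₂, lg_b₄, lg_b₆, map_mul,
        map_add, map_sub, map_neg, map_one, e2', e4', map_zero]
      field_simp
      rw [hMr']
      ring)
    (by
      simp only [hF, mul', pow', sub', two', one', toRF_X, toRF_C, lg_b₂, lg_b₄, lg_b₆, map_mul,
        map_add, map_sub, map_neg, map_one, e2', e4', map_zero]
      field_simp
      rw [hMr']
      ring)
    (s₀ := s) (s₁ := 0) (y₀ := y * (s ^ 2 - 1) ^ 2) (y₁ := y₁) hs0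
    (mul_ne_zero hy (pow_ne_zero 2 hs1)) hy₁0 hFs hy₁.symm
    (p₁ := .some t y h) (q₁ := .some _ _ hq₁) (p₂ := .some _ _ h') (q₂ := .some _ _ hq₂)
    ⟨⟨_, _, hMne, rfl, by
        simp only [eval_sub, eval_mul, eval_pow, eval_X, eval_C, hMs]
        exact hA⟩,
      2 / (s ^ 2 - 1) ^ 2, ⟨_, _, by simpa [hMs] using hs1, rfl, by
        simp only [eval_pow, hMs, eval_ofNat]; field_simp⟩, by
      simp only [lg]; field_simp; ring⟩
    ⟨⟨_, _, hMne, rfl, by
        simp only [eval_sub, eval_mul, eval_pow, eval_X, eval_C, hMs]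
        exact hA⟩,
      2 * s / (s ^ 2 - 1) ^ 2, ⟨_, _, by simpa [hMs] using hs1, rfl, by
        simp only [eval_mul, eval_X, eval_pow, hMs, eval_ofNat]; field_simp⟩, by
      simp only [lg]; rw [hsy]; field_simp; ring⟩
    ⟨⟨_, _, by rw [hM0]; norm_num, rfl, by simp [hM0]⟩,
      2, ⟨_, _, by simp [hM0], rfl, by simp [hM0]⟩, by
      simp only [lg]; ring⟩
    ⟨⟨_, _, by rw [hM0]; norm_num, rfl, by simp [hM0]⟩,
      0, ⟨_, _, by simp [hM0], rfl, by simp⟩, by simp [lg]⟩
  have hneg : -(Affine.Point.some mu 0 hq₂ : (lg mu).toAffine.Point) = .some mu 0 hq₂ := by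
    rw [Affine.Point.neg_some]
    simp [Affine.negY, lg]
  rw [key, hneg, pt_neg_left]
  nth_rewrite 2 [← hneg]
  exact pt_neg_right _ _

end Pool.Agent.LibIG50
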