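import Pool.Agent.LibIG50.Base

/-!
Task I: a point of infinite order has multiples with 2-adically large abscissa.
-/

open scoped Classical
open WeierstrassCurve Pool.Agent.LibBH2

namespace Pool.Agent.LibIG50

namespace TI94

section grp

variable {K : Type} [Field K]

/-- the equation of the curve -/
theorem eqn {lam x y : K} (h : (lg lam).toAffine.Nonsingular x y) :
    y ^ 2 = x * (x - 1) * (x - lam) := by
  have h1 := h.1
  rw [Affine.equation_iff] at h1
  simp only [lg] at h1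
  linear_combination h1

theorem negY_eq (lam x y : K) : (lg lam).toAffine.negY x y = -y := by
  simp [Affine.negY, lg]

theorem addX_eq (lam x1 x2 l : K) :
    (lg lam).toAffine.addX x1 x2 l = l ^ 2 + (1 + lam) - x1 - x2 := by
  simp only [Affine.addX, lg]
  ring

theorem addY_eq (lam x1 x2 y1 l : K) :
    (lg lam).toAffine.addY x1 x2 y1 l =
      -(l * (l ^ 2 + (1 + lam) - x1 - x2 - x1) + y1) := by
  simp only [Affine.addY, Affine.negAddY, addX_eq, negY_eq]

/-- the abscissa of a difference of points with different abscissas -/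
theorem sub_x {lam x1 y1 x2 y2 x3 y3 : K} {h1 : (lg lam).toAffine.Nonsingular x1 y1}
    {h2 : (lg lam).toAffine.Nonsingular x2 y2} {h3 : (lg lam).toAffine.Nonsingular x3 y3}
    (hx : x1 ≠ x2)
    (h : Affine.Point.some x1 y1 h1 - Affine.Point.some x2 y2 h2 = Affine.Point.some x3 y3 h3) :
    (x3 - (1 + lam) + x1 + x2) * (x1 - x2) ^ 2 = (y1 + y2) ^ 2 := by
  rw [sub_eq_add_neg, Affine.Point.neg_some, Affine.Point.add_of_X_ne hx,
    Affine.Point.some.injEq] at h
  have h4 := h.1
  rw [addX_eq, Affine.slope_of_X_ne hx, negY_eq] at h4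
  have h5 : x1 - x2 ≠ 0 := sub_ne_zero.mpr hx
  rw [← h4]
  field_simp
  ring

/-- the abscissa of the double of a point -/
theorem dbl_x [CharZero K] {lam x1 y1 x3 y3 : K} {h1 : (lg lam).toAffine.Nonsingular x1 y1}
    {h3 : (lg lam).toAffine.Nonsingular x3 y3} (hy : y1 ≠ 0)
    (h : Affine.Point.some x1 y1 h1 + Affine.Point.some x1 y1 h1 = Affine.Point.some x3 y3 h3) :
    x3 * (4 * y1 ^ 2) = (x1 ^ 2 - lam) ^ 2 := by
  have hne : y1 ≠ (lg lam).toAffine.negY x1 y1 := by
    rw [negY_eq]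
    intro h5
    apply hy
    have h6 : (2 : K) * y1 = 0 := by linear_combination h5
    exact (mul_eq_zero.mp h6).resolve_left two_ne_zero
  rw [Affine.Point.add_self_of_Y_ne hne, Affine.Point.some.injEq] at h
  have h4 := h.1
  rw [addX_eq, Affine.slope_of_Y_ne rfl hne, negY_eq] at h4
  simp only [lg] at h4
  have h5 := eqn h1
  have h7 : y1 - -y1 ≠ 0 := by
    rw [sub_neg_eq_add, ← two_mul]
    exact mul_ne_zero two_ne_zero hy
  have h8 : ((3 * x1 ^ 2 + 2 * -(1 + lam) * x1 + lam - 0 * y1) / (y1 - -y1)) ^ 2 * (4 * y1 ^ 2) =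
      (3 * x1 ^ 2 - 2 * (1 + lam) * x1 + lam) ^ 2 := by
    rw [div_pow, show 4 * y1 ^ 2 = (y1 - -y1) ^ 2 by ring, div_mul_cancel₀ _ (pow_ne_zero 2 h7)]
    ring
  rw [← h4]
  calc (((3 * x1 ^ 2 + 2 * -(1 + lam) * x1 + lam - 0 * y1) / (y1 - -y1)) ^ 2 + (1 + lam) - x1 - x1) *
      (4 * y1 ^ 2)
      = ((3 * x1 ^ 2 + 2 * -(1 + lam) * x1 + lam - 0 * y1) / (y1 - -y1)) ^ 2 * (4 * y1 ^ 2) +
        ((1 + lam) - x1 - x1) * (4 * y1 ^ 2) := by ring
    _ = _ := by
        rw [h8, h5]
        ring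

/-- the points with coordinates in a subfield -/
def InS (S : Subfield K) {lam : K} (P : (lg lam).toAffine.Point) : Prop :=
  ∀ (x y : K) (h : (lg lam).toAffine.Nonsingular x y), P = Affine.Point.some x y h → x ∈ S ∧ y ∈ S

theorem inS_add (S : Subfield K) {lam : K} (hl : lam ∈ S) {P Q : (lg lam).toAffine.Point}
    (hP : InS S P) (hQ : InS S Q) : InS S (P + Q) := by
  rcases P with _ | ⟨x1, y1, h1⟩
  · rw [← Affine.Point.zero_def, zero_add]
    exact hQ
  rcases Q with _ | ⟨x2, y2, h2⟩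
  · rw [← Affine.Point.zero_def, add_zero]
    exact hP
  obtain ⟨hx1, hy1⟩ := hP x1 y1 h1 rfl
  obtain ⟨hx2, hy2⟩ := hQ x2 y2 h2 rfl
  intro x y h he
  by_cases hxy : x1 = x2 ∧ y1 = (lg lam).toAffine.negY x2 y2
  · rw [Affine.Point.add_of_Y_eq hxy.1 hxy.2] at he
    exact absurd he.symm (Affine.Point.some_ne_zero h)
  · rw [Affine.Point.add_some hxy, Affine.Point.some.injEq, addX_eq, addY_eq] at he
    have hs : (lg lam).toAffine.slope x1 x2 y1 y2 ∈ S := by
      rw [Affine.slope]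
      split_ifs
      · exact S.zero_mem
      · rw [negY_eq]
        simp only [lg]
        have h3 : (3 : K) ∈ S := by exact_mod_cast natCast_mem S 3
        have h2 : (2 : K) ∈ S := by exact_mod_cast natCast_mem S 2
        refine S.div_mem (S.sub_mem (S.add_mem (S.add_mem (S.mul_mem h3 (S.pow_mem hx1 2))
          (S.mul_mem (S.mul_mem h2 (S.neg_mem (S.add_mem S.one_mem hl))) hx1)) hl)
          (S.mul_mem S.zero_mem hy1)) (S.sub_mem hy1 (S.neg_mem hy1))
      · exact S.div_mem (S.sub_mem hy1 hy2) (S.sub_mem hx1 hx2)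
    have hX := S.sub_mem (S.sub_mem (S.add_mem (S.pow_mem hs 2) (S.add_mem S.one_mem hl)) hx1) hx2
    rw [← he.1, ← he.2]
    exact ⟨hX, S.neg_mem (S.add_mem (S.mul_mem hs (S.sub_mem hX hx1)) hy1)⟩

theorem inS_nsmul (S : Subfield K) {lam : K} (hl : lam ∈ S) {P : (lg lam).toAffine.Point}
    (hP : InS S P) (N : ℕ) : InS S (N • P) := by
  induction N with
  | zero =>
    intro x y h he
    rw [zero_smul] at he
    exact absurd he.symm (Affine.Point.some_ne_zero h)
  | succ n ih =>
    rw [succ_nsmul]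
    exact inS_add S hl ih hP

end grp

section core

open Filter Topology

variable {K L : Type} [Field K] [NormedField L] [CharZero L]

/-- no multiple is zero -/
theorem mult_some {lam : K} {P : (lg lam).toAffine.Point} (hP : ¬ IsOfFinAddOrder P) {N : ℕ}
    (hN : 0 < N) : ∃ (x y : K) (h : (lg lam).toAffine.Nonsingular x y),
      N • P = Affine.Point.some x y h := by
  have h0 : N • P ≠ 0 := by
    intro h
    exact hP (isOfFinAddOrder_iff_nsmul_eq_zero.mpr ⟨N, hN, h⟩)
  rcases hQ : N • P with _ | ⟨x, y, h⟩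
  · exact absurd hQ h0
  · exact ⟨x, y, h, rfl⟩

/-- the compactness argument -/
theorem core (ψ : K →+* L) (M : Set L) (hM : ∀ R : ℝ, IsCompact (Metric.closedBall 0 R ∩ M))
    (lam : K) (h0 : lam ≠ 0) (h1 : lam ≠ 1) (P : (lg lam).toAffine.Point)
    (hP : ¬ IsOfFinAddOrder P)
    (hPM : ∀ (N : ℕ) (x y : K) (h : (lg lam).toAffine.Nonsingular x y),
      N • P = Affine.Point.some x y h → ψ x ∈ M ∧ ψ y ∈ M) (B : ℝ) :
    ∃ N : ℕ, 0 < N ∧ ∃ (x y : K) (h : (lg lam).toAffine.Nonsingular x y),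
      N • P = Affine.Point.some x y h ∧ B < ‖ψ x‖ := by
  have hcz : CharZero K := (RingHom.charZero_iff ψ.injective).mpr inferInstance
  by_contra hcon
  push Not at hcon
  have hs : ∀ n : ℕ, ∃ (x y : K) (h : (lg lam).toAffine.Nonsingular x y),
      (n + 1) • P = Affine.Point.some x y h := fun n => mult_some hP n.succ_pos
  choose x y hns hxy using hs
  have hxB : ∀ n, ‖ψ (x n)‖ ≤ B := fun n => hcon (n + 1) n.succ_pos _ _ _ (hxy n)
  have hB : 0 ≤ B := le_trans (norm_nonneg _) (hxB 0)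
  -- the equation
  have heq : ∀ n, ψ (y n) ^ 2 = ψ (x n) * (ψ (x n) - 1) * (ψ (x n) - ψ lam) := by
    intro n
    rw [← map_pow, eqn (hns n)]
    simp only [map_mul, map_sub, map_one]
  have hyB : ∀ n, ‖ψ (y n)‖ ≤ 1 + B * (B + 1) * (B + ‖ψ lam‖) := by
    intro n
    have h2 : ‖ψ (y n)‖ ^ 2 ≤ B * (B + 1) * (B + ‖ψ lam‖) := by
      rw [← norm_pow, heq n, norm_mul, norm_mul]
      have h3 : ‖ψ (x n) - 1‖ ≤ B + 1 := by
        refine le_trans (norm_sub_le _ _) ?_
        rw [norm_one]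
        linarith [hxB n]
      have h4 : ‖ψ (x n) - ψ lam‖ ≤ B + ‖ψ lam‖ :=
        le_trans (norm_sub_le _ _) (by linarith [hxB n])
      have h5 := norm_nonneg (ψ lam)
      gcongr
      exact hxB n
    nlinarith [sq_nonneg (‖ψ (y n)‖ - 1), norm_nonneg (ψ (y n)), norm_nonneg (ψ lam)]
  -- the converging subsequence
  have hK : IsCompact ((Metric.closedBall (0 : L) B ∩ M) ×ˢ
      (Metric.closedBall (0 : L) (1 + B * (B + 1) * (B + ‖ψ lam‖)) ∩ M)) := (hM _).prod (hM _)
  have hmem : ∀ n, (ψ (x n), ψ (y n)) ∈ ((Metric.closedBall (0 : L) B ∩ M) ×ˢ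
      (Metric.closedBall (0 : L) (1 + B * (B + 1) * (B + ‖ψ lam‖)) ∩ M)) := by
    intro n
    refine ⟨⟨?_, (hPM _ _ _ _ (hxy n)).1⟩, ⟨?_, (hPM _ _ _ _ (hxy n)).2⟩⟩
    · rw [mem_closedBall_zero_iff]
      exact hxB n
    · rw [mem_closedBall_zero_iff]
      exact hyB n
  obtain ⟨⟨a, b⟩, -, φ, hφ, hlim⟩ := hK.tendsto_subseq hmem
  have hX : Tendsto (fun n => ψ (x (φ n))) atTop (𝓝 a) := (continuous_fst.tendsto _).comp hlim
  have hY : Tendsto (fun n => ψ (y (φ n))) atTop (𝓝 b) := (continuous_snd.tendsto _).comp hlim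
  have hX1 : Tendsto (fun n => ψ (x (φ (n + 1)))) atTop (𝓝 a) := hX.comp (tendsto_add_atTop_nat 1)
  have hY1 : Tendsto (fun n => ψ (y (φ (n + 1)))) atTop (𝓝 b) := hY.comp (tendsto_add_atTop_nat 1)
  -- the limit is on the curve
  have hab : b ^ 2 = a * (a - 1) * (a - ψ lam) := by
    refine tendsto_nhds_unique (hY.pow 2) ?_
    refine Tendsto.congr (fun n => (heq (φ n)).symm) ?_
    exact (hX.mul (hX.sub_const 1)).mul (hX.sub_const _)
  -- the differences
  have hb : b = 0 := by
    have h2 : ∀ n, (ψ (x (φ (n + 1) - φ n - 1)) - (1 + ψ lam) + ψ (x (φ (n + 1))) +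
        ψ (x (φ n))) * (ψ (x (φ (n + 1))) - ψ (x (φ n))) ^ 2 =
        (ψ (y (φ (n + 1))) + ψ (y (φ n))) ^ 2 := by
      intro n
      have hlt : φ n < φ (n + 1) := hφ (Nat.lt_succ_self n)
      have hne : x (φ (n + 1)) ≠ x (φ n) := by
        intro he
        have h3 := (Affine.Point.X_eq_iff (h₁ := hns (φ (n + 1))) (h₂ := hns (φ n))).mp he
        rw [← hxy, ← hxy] at h3
        rcases h3 with h3 | h3
        · refine hP (isOfFinAddOrder_iff_nsmul_eq_zero.mpr ⟨φ (n + 1) - φ n, by omega, ?_⟩)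
          have h4 : (φ (n + 1) + 1) = (φ (n + 1) - φ n) + (φ n + 1) := by omega
          rw [h4, add_smul] at h3
          exact add_eq_right.mp h3
        · refine hP (isOfFinAddOrder_iff_nsmul_eq_zero.mpr
            ⟨(φ (n + 1) + 1) + (φ n + 1), by omega, ?_⟩)
          rw [add_smul, h3]
          exact neg_add_cancel _
      have h5 : (φ (n + 1) - φ n - 1 + 1) • P =
          (φ (n + 1) + 1) • P - (φ n + 1) • P := by
        rw [eq_sub_iff_add_eq, ← add_smul]
        congr 1
        omega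
      rw [hxy, hxy, hxy] at h5
      have h6 := sub_x hne h5.symm
      have h7 := congrArg ψ h6
      simpa only [map_mul, map_pow, map_add, map_sub, map_one] using h7
    have h3 : Tendsto (fun n => (ψ (y (φ (n + 1))) + ψ (y (φ n))) ^ 2) atTop
        (𝓝 ((b + b) ^ 2)) := (hY1.add hY).pow 2
    have h4 : Tendsto (fun n => (ψ (y (φ (n + 1))) + ψ (y (φ n))) ^ 2) atTop (𝓝 0) := by
      refine Tendsto.congr h2 ?_
      have h5 : Tendsto (fun n => (ψ (x (φ (n + 1))) - ψ (x (φ n))) ^ 2) atTop (𝓝 0) := by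
        have := (hX1.sub hX).pow 2
        simpa using this
      refine squeeze_zero_norm (a := fun n => (B + (1 + ‖ψ lam‖) + B + B) *
        ‖(ψ (x (φ (n + 1))) - ψ (x (φ n))) ^ 2‖) (fun n => ?_) ?_
      · rw [norm_mul]
        gcongr
        refine le_trans (norm_add_le _ _) ?_
        refine add_le_add (le_trans (norm_add_le _ _) ?_) (hxB _)
        refine add_le_add (le_trans (norm_sub_le _ _) ?_) (hxB _)
        refine add_le_add (hxB _) (le_trans (norm_add_le _ _) ?_)
        rw [norm_one]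
      · have := (h5.norm).const_mul (B + (1 + ‖ψ lam‖) + B + B)
        simpa using this
    have h5 := tendsto_nhds_unique h3 h4
    have h6 : (2 : L) * b = 0 := by
      have := pow_eq_zero_iff (two_ne_zero) |>.mp h5
      linear_combination this
    exact (mul_eq_zero.mp h6).resolve_left two_ne_zero
  -- the doubles
  have hd : (a ^ 2 - ψ lam) ^ 2 = 0 := by
    have h2 : ∀ n, ψ (x (2 * φ n + 1)) * (4 * ψ (y (φ n)) ^ 2) = (ψ (x (φ n)) ^ 2 - ψ lam) ^ 2 := by
      intro n
      have h5 : (φ n + 1) • P + (φ n + 1) • P = (2 * φ n + 1 + 1) • P := by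
        rw [← add_smul]
        congr 1
        omega
      have hy0 : y (φ n) ≠ 0 := by
        intro hy
        have h6 : (φ n + 1) • P + (φ n + 1) • P = 0 := by
          rw [hxy]
          refine Affine.Point.add_self_of_Y_eq ?_
          rw [negY_eq, hy, neg_zero]
        rw [h5] at h6
        exact hP (isOfFinAddOrder_iff_nsmul_eq_zero.mpr ⟨_, by omega, h6⟩)
      rw [hxy, hxy] at h5
      have h7 := congrArg ψ (dbl_x hy0 h5)
      simpa only [map_mul, map_pow, map_sub, map_ofNat] using h7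
    have h3 : Tendsto (fun n => (ψ (x (φ n)) ^ 2 - ψ lam) ^ 2) atTop (𝓝 ((a ^ 2 - ψ lam) ^ 2)) :=
      ((hX.pow 2).sub_const _).pow 2
    have h4 : Tendsto (fun n => (ψ (x (φ n)) ^ 2 - ψ lam) ^ 2) atTop (𝓝 0) := by
      refine Tendsto.congr h2 ?_
      have h5 : Tendsto (fun n => 4 * ψ (y (φ n)) ^ 2) atTop (𝓝 0) := by
        have := (hY.pow 2).const_mul 4
        rw [hb] at this
        simpa using this
      refine squeeze_zero_norm (a := fun n => B * ‖4 * ψ (y (φ n)) ^ 2‖) (fun n => ?_) ?_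
      · rw [norm_mul]
        gcongr
        exact hxB _
      · have := (h5.norm).const_mul B
        simpa using this
    exact tendsto_nhds_unique h3 h4
  have hd1 : a ^ 2 = ψ lam := by
    have := pow_eq_zero_iff (two_ne_zero) |>.mp hd
    exact sub_eq_zero.mp this
  rw [hb, ← hd1] at hab
  have h2 : a ^ 2 * (a - 1) ^ 2 = 0 := by linear_combination hab
  rcases mul_eq_zero.mp h2 with h3 | h3
  · apply h0
    apply ψ.injective
    rw [map_zero, ← hd1, h3]
  · have h4 : a = 1 := sub_eq_zero.mp (pow_eq_zero_iff two_ne_zero |>.mp h3)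
    apply h1
    apply ψ.injective
    rw [map_one, ← hd1, h4, one_pow]

end core

end TI94

theorem deep_mult_proper {F : Type} [NormedField F] [IsUltrametricDist F] [ProperSpace F]
    [CharZero F] (lam : F) (h0 : lam ≠ 0) (h1 : lam ≠ 1) (P : (lg lam).toAffine.Point)
    (hP : ¬ IsOfFinAddOrder P) (B : ℝ) :
    ∃ N : ℕ, 0 < N ∧ ∃ (x y : F) (h : (lg lam).toAffine.Nonsingular x y),
      N • P = Affine.Point.some x y h ∧ B < ‖x‖ := by
  refine TI94.core (RingHom.id F) Set.univ (fun R => ?_) lam h0 h1 P hP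
    (fun _ _ _ _ _ => ⟨Set.mem_univ _, Set.mem_univ _⟩) B
  rw [Set.inter_univ]
  exact isCompact_closedBall _ _

theorem deep_mult (lam : Qb) (h0 : lam ≠ 0) (h1 : lam ≠ 1) (P : (lg lam).toAffine.Point)
    (hP : ¬ IsOfFinAddOrder P) (B : ℝ) :
    ∃ N : ℕ, 0 < N ∧ ∃ (x y : Qb) (h : (lg lam).toAffine.Nonsingular x y),
      N • P = Affine.Point.some x y h ∧ B < ‖jj x‖ := by
  rcases hQ : P with _ | ⟨x0, y0, hn0⟩
  · exfalso
    apply hP
    rw [hQ, ← Affine.Point.zero_def]
    exact IsOfFinAddOrder.zero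
  rw [← hQ]
  let T : Finset L2 := {jj lam, jj x0, jj y0}
  let M : IntermediateField ℚ_[2] L2 := IntermediateField.adjoin ℚ_[2] (T : Set L2)
  have hfd : FiniteDimensional ℚ_[2] M := by
    apply IntermediateField.finiteDimensional_adjoin
    intro z _
    exact (Algebra.IsIntegral.isIntegral z)
  have hT : ∀ z ∈ T, z ∈ M := fun z hz => IntermediateField.subset_adjoin _ _ hz
  let S : Subfield Qb := M.toSubfield.comap jj
  have hprop : ProperSpace M := FiniteDimensional.proper ℚ_[2] M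
  refine TI94.core jj (M : Set L2) (fun R => ?_) lam h0 h1 P hP ?_ B
  · have h2 : Metric.closedBall 0 R ∩ (M : Set L2) =
        (Subtype.val : M → L2) '' Metric.closedBall 0 R := by
      ext z
      constructor
      · rintro ⟨hz1, hz2⟩
        refine ⟨⟨z, hz2⟩, ?_, rfl⟩
        rw [mem_closedBall_zero_iff] at hz1 ⊢
        exact hz1
      · rintro ⟨w, hw, rfl⟩
        refine ⟨?_, w.2⟩
        rw [mem_closedBall_zero_iff] at hw ⊢
        exact hw
    rw [h2]
    exact (isCompact_closedBall _ _).image continuous_subtype_val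
  · intro N x y h he
    have hS : TI94.InS S P := by
      intro x' y' h' he'
      rw [hQ, Affine.Point.some.injEq] at he'
      rw [← he'.1, ← he'.2]
      exact ⟨hT _ (by simp [T]), hT _ (by simp [T])⟩
    have hlS : lam ∈ S := hT _ (by simp [T])
    exact TI94.inS_nsmul S hlS hS N x y h he

end Pool.Agent.LibIG50
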