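import Pool.Agent.LibIG50.Base

/-!
Task J: from pairs to products of any number of curves.
-/

open scoped Classical
open WeierstrassCurve Pool.Agent.LibBH2

namespace Pool.Agent.LibIG50

section push

variable {k : Type} [Field k]

/-- push-forward of zero-cycles along a map given componentwise -/
theorem exists_push {W₁ W₂ : WeierstrassCurve k} {r : ℕ} (W : Fin r → WeierstrassCurve k)
    (F : W₁.toAffine.Point → W₂.toAffine.Point → Pts W)
    (hF : ∀ (K : Type) [Field K] [Algebra k K] (T₁ : (W₁⁄K).toAffine.Point)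
      (T₂ : (W₂⁄K).toAffine.Point), ∃ T : ∀ i, ((W i)⁄K).toAffine.Point,
        ∀ (v : Place k K) (p₁ : W₁.toAffine.Point) (p₂ : W₂.toAffine.Point),
          Spec v T₁ p₁ → Spec v T₂ p₂ → ∀ i, Spec v (T i) (F p₁ p₂ i)) :
    ∃ G : CH0 W₁ W₂ →+ CHN W, ∀ P Q, G (pt P Q) = cls W (Finsupp.single (F P Q) 1) := by
  set f : (W₁.toAffine.Point × W₂.toAffine.Point →₀ ℤ) →+ (Pts W →₀ ℤ) :=
    Finsupp.mapDomain.addMonoidHom (M := ℤ) (fun a => F a.1 a.2) with hf
  have hle : AddSubgroup.closure {c | IsPrincipal W₁ W₂ c} ≤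
      (AddSubgroup.closure {c | IsPrincipalN W c}).comap f := by
    rw [AddSubgroup.closure_le]
    rintro c ⟨K, i1, i2, ι, T₁, T₂, φ, S, p₁, p₂, hι, hφ, hS, hp, rfl⟩
    obtain ⟨T, hT⟩ := hF K T₁ T₂
    refine AddSubgroup.subset_closure ⟨K, i1, i2, ι, T, φ, S, fun v => F (p₁ v) (p₂ v), hι, hφ, hS,
      fun v hv => hT v _ _ (hp v hv).1 (hp v hv).2, ?_⟩
    rw [map_sum]
    refine Finset.sum_congr rfl fun v _ => ?_
    exact Finsupp.mapDomain_single
  refine ⟨QuotientAddGroup.map _ _ f hle, fun P Q => ?_⟩
  change QuotientAddGroup.mk' _ (f (Finsupp.single (P, Q) 1)) = _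
  rw [cls]
  congr 1
  exact Finsupp.mapDomain_single

theorem push_one {r : ℕ} (W : Fin r → WeierstrassCurve k) (b : Pts W) (i : Fin r) :
    ∃ G : CH0 (W i) (W i) →+ CHN W, ∀ P Q,
      G (pt P Q) = cls W (Finsupp.single (Function.update b i P) 1) := by
  refine exists_push W (fun P _ => Function.update b i P) (fun K _ _ T₁ T₂ => ?_)
  refine ⟨Function.update (fun l => constPt K (b l)) i T₁, fun v p₁ p₂ h₁ h₂ l => ?_⟩
  by_cases hl : l = i
  · subst hl
    rw [Function.update_self, Function.update_self]
    exact h₁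
  · rw [Function.update_of_ne hl, Function.update_of_ne hl]
    exact spec_const v _

theorem push_two {r : ℕ} (W : Fin r → WeierstrassCurve k) (b : Pts W) (i j : Fin r) :
    ∃ G : CH0 (W i) (W j) →+ CHN W, ∀ P Q,
      G (pt P Q) = cls W (Finsupp.single (Function.update (Function.update b i P) j Q) 1) := by
  refine exists_push W (fun P Q => Function.update (Function.update b i P) j Q)
    (fun K _ _ T₁ T₂ => ?_)
  refine ⟨Function.update (Function.update (fun l => constPt K (b l)) i T₁) j T₂,
    fun v p₁ p₂ h₁ h₂ l => ?_⟩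
  by_cases hl : l = j
  · subst hl
    rw [Function.update_self, Function.update_self]
    exact h₂
  · rw [Function.update_of_ne hl, Function.update_of_ne hl]
    by_cases hl' : l = i
    · subst hl'
      rw [Function.update_self, Function.update_self]
      exact h₁
    · rw [Function.update_of_ne hl', Function.update_of_ne hl']
      exact spec_const v _

end push

/-- a combinatorial lemma -/
theorem eq_sum_of_second_difference {r : ℕ} {X : Fin r → Type} [∀ i, Zero (X i)]
    {V : Type} [AddCommGroup V] (E : (∀ i, X i) → V) (a : ∀ i, X i)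
    (hB : ∀ (b : ∀ i, X i) (i j : Fin r), i ≠ j →
      E (Function.update (Function.update b i (a i)) j (a j)) -
        E (Function.update (Function.update b i (a i)) j 0) -
        E (Function.update (Function.update b i 0) j (a j)) +
        E (Function.update (Function.update b i 0) j 0) = 0) :
    E a = E 0 + ∑ i, (E (Function.update 0 i (a i)) - E 0) := by
  have hstep : ∀ (j : Fin r) (s : Finset (Fin r)), j ∉ s →
      E (Function.update (s.piecewise a 0) j (a j)) - E (Function.update (s.piecewise a 0) j 0) =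
        E (Function.update 0 j (a j)) - E 0 := by
    intro j s
    induction s using Finset.induction_on with
    | empty =>
      intro _
      rw [Finset.piecewise_empty]
      have h1 : Function.update (0 : ∀ i, X i) j 0 = 0 := by
        rw [Function.update_eq_self_iff]; rfl
      rw [h1]
    | insert i s hi ih =>
      intro hj
      have hji : j ≠ i := fun h => hj (by rw [h]; exact Finset.mem_insert_self _ _)
      have hjs : j ∉ s := fun h => hj (Finset.mem_insert_of_mem h)
      rw [← ih hjs, Finset.piecewise_insert]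
      have h1 := hB (s.piecewise a 0) i j (Ne.symm hji)
      have h2 : Function.update (s.piecewise a 0) i 0 = s.piecewise a 0 := by
        rw [Function.update_eq_self_iff, Finset.piecewise_eq_of_notMem _ _ _ hi]
        rfl
      rw [h2] at h1
      rw [sub_add, sub_eq_zero] at h1
      exact h1
  have hmain : ∀ s : Finset (Fin r), E (s.piecewise a 0) =
      E 0 + ∑ i ∈ s, (E (Function.update 0 i (a i)) - E 0) := by
    intro s
    induction s using Finset.induction_on with
    | empty => rw [Finset.piecewise_empty, Finset.sum_empty, add_zero]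
    | insert j s hj ih =>
      rw [Finset.sum_insert hj, ← hstep j s hj, Finset.piecewise_insert]
      have h2 : Function.update (s.piecewise a 0) j 0 = s.piecewise a 0 := by
        rw [Function.update_eq_self_iff, Finset.piecewise_eq_of_notMem _ _ _ hj]
        rfl
      rw [h2, add_left_comm, ← ih]
      abel
  have h := hmain Finset.univ
  rwa [Finset.piecewise_univ] at h

/-- If all `z(P, Q)`, `P ∈ Γ i`, `Q ∈ Γ j`, `i ≠ j`, are torsion, then every zero-cycle of degree
zero supported on the product of the `Γ i` whose sum in each `W i` is torsion is torsion in the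
Chow group. -/
theorem cls_torsion {k : Type} [Field k] [CharZero k] [IsAlgClosed k] {r : ℕ}
    (W : Fin r → WeierstrassCurve k) [∀ i, (W i).IsElliptic]
    (Γ : ∀ i, AddSubgroup (W i).toAffine.Point)
    (hz : ∀ i j, i ≠ j → ∀ P ∈ Γ i, ∀ Q ∈ Γ j, IsOfFinAddOrder (zc P Q : CH0 (W i) (W j)))
    (c : Pts W →₀ ℤ) (hc : ∀ a ∈ c.support, ∀ i, a i ∈ Γ i) (hdeg : (c.sum fun _ n => n) = 0)
    (hsum : ∀ i, IsOfFinAddOrder (c.sum fun a n => n • a i)) : IsOfFinAddOrder (cls W c) := by
  set q := QuotientAddGroup.mk' (AddCommGroup.torsion (CHN W)) with hq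
  have hq0 : ∀ z : CHN W, q z = 0 ↔ IsOfFinAddOrder z := fun z =>
    QuotientAddGroup.eq_zero_iff (N := AddCommGroup.torsion (CHN W)) z
  rw [← hq0]
  let clsHom : (Pts W →₀ ℤ) →+ CHN W := QuotientAddGroup.mk' _
  set E : Pts W → CHN W ⧸ AddCommGroup.torsion (CHN W) :=
    fun a => q (cls W (Finsupp.single a 1)) with hE
  have hA : ∀ (i : Fin r) (P P' : (W i).toAffine.Point),
      E (Function.update 0 i (P + P')) + E 0 =
        E (Function.update 0 i P) + E (Function.update 0 i P') := by
    intro i P P'
    obtain ⟨G, hG⟩ := push_one W 0 i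
    have h1 := congrArg (fun z => q (G z)) (pt_add_left (W₂ := W i) P P' 0)
    simp only [map_add, hG] at h1
    have h2 : Function.update (0 : Pts W) i 0 = 0 := by
      rw [Function.update_eq_self_iff]; rfl
    rw [h2] at h1
    exact h1
  let φ : ∀ i, (W i).toAffine.Point →+ CHN W ⧸ AddCommGroup.torsion (CHN W) := fun i =>
    AddMonoidHom.mk' (fun P => E (Function.update 0 i P) - E 0) (fun P P' => by
      rw [← sub_eq_zero, show E (Function.update 0 i (P + P')) - E 0 -
        (E (Function.update 0 i P) - E 0 + (E (Function.update 0 i P') - E 0)) =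
        (E (Function.update 0 i (P + P')) + E 0) - (E (Function.update 0 i P) +
          E (Function.update 0 i P')) by abel, hA, sub_self])
  have hφ : ∀ i (P : (W i).toAffine.Point), IsOfFinAddOrder P → φ i P = 0 := by
    intro i P hP
    have h1 : φ i P = q (cls W (Finsupp.single (Function.update 0 i P) 1) -
        cls W (Finsupp.single 0 1)) := by
      rw [map_sub]; rfl
    rw [h1, hq0]
    have h2 := (φ i).isOfFinAddOrder hP
    rw [h1] at h2
    rw [isOfFinAddOrder_iff_nsmul_eq_zero] at h2
    obtain ⟨n, hn, h3⟩ := h2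
    rw [← map_nsmul, hq0, isOfFinAddOrder_iff_nsmul_eq_zero] at h3
    obtain ⟨m, hm, h4⟩ := h3
    rw [← mul_smul] at h4
    exact isOfFinAddOrder_iff_nsmul_eq_zero.2 ⟨m * n, Nat.mul_pos hm hn, h4⟩
  have hEa : ∀ a : Pts W, (∀ i, a i ∈ Γ i) → E a = E 0 + ∑ i, φ i (a i) := by
    intro a ha
    refine eq_sum_of_second_difference E a (fun b i j hij => ?_)
    obtain ⟨G, hG⟩ := push_two W b i j
    have h1 := G.isOfFinAddOrder (hz i j hij _ (ha i) _ (ha j))
    rw [← hq0] at h1
    unfold zc at h1
    simp only [map_add, map_sub, hG] at h1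
    exact h1
  have hcls : cls W c = clsHom c := rfl
  have hsumc : c = ∑ a ∈ c.support, c a • Finsupp.single a (1 : ℤ) := by
    conv_lhs => rw [← Finsupp.sum_single c]
    rw [Finsupp.sum]
    refine Finset.sum_congr rfl fun a _ => ?_
    rw [Finsupp.smul_single]
    simp
  have h1 : q (cls W c) = ∑ a ∈ c.support, c a • E a := by
    rw [hcls]
    conv_lhs => rw [hsumc]
    rw [map_sum, map_sum]
    refine Finset.sum_congr rfl fun a _ => ?_
    rw [map_zsmul, map_zsmul]
    rfl
  have h2 : ∑ a ∈ c.support, c a • E a =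
      ∑ a ∈ c.support, (c a • E 0 + ∑ i, φ i (c a • a i)) := by
    refine Finset.sum_congr rfl fun a ha => ?_
    rw [hEa a (hc a ha), smul_add, Finset.smul_sum]
    simp only [map_zsmul]
  have h3 : ∑ a ∈ c.support, c a • E 0 = 0 := by
    rw [← Finset.sum_smul]
    have : ∑ a ∈ c.support, c a = 0 := hdeg
    rw [this, zero_smul]
  rw [h1, h2, Finset.sum_add_distrib, h3, zero_add, Finset.sum_comm]
  refine Finset.sum_eq_zero fun i _ => ?_
  rw [← map_sum]
  exact hφ i _ (hsum i)

end Pool.Agent.LibIG50
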