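import Pool.Agent.LibIG50.TA
import Pool.Agent.LibIG50.TB
import Pool.Agent.LibIG50.TI
import Pool.Agent.LibIG50.TJ
import Pool.Agent.LibIG50.Rank

/-!
The subgroups `Gam t W` of the groups of points of all elliptic curves `W` over the algebraic
numbers.
-/

open scoped Classical
open WeierstrassCurve Pool.Agent.LibBH2

namespace Pool.Agent.LibIG50

/-- the saturation of a subgroup -/
def sat {A : Type} [AddCommGroup A] (B : AddSubgroup A) : AddSubgroup A where
  carrier := {R | ∃ n : ℕ, 0 < n ∧ n • R ∈ B}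
  zero_mem' := ⟨1, one_pos, by rw [smul_zero]; exact B.zero_mem⟩
  add_mem' := by
    rintro R S ⟨n, hn, h⟩ ⟨m, hm, h'⟩
    refine ⟨n * m, Nat.mul_pos hn hm, ?_⟩
    rw [smul_add]
    refine B.add_mem ?_ ?_
    · rw [mul_comm, mul_smul]
      exact B.nsmul_mem h m
    · rw [mul_smul]
      exact B.nsmul_mem h' n
  neg_mem' := by
    rintro R ⟨n, hn, h⟩
    refine ⟨n, hn, ?_⟩
    rw [smul_neg]
    exact B.neg_mem h

/-- the subgroup of `W` -/
noncomputable def Gam (t : Qb) (W : WeierstrassCurve Qb) : AddSubgroup W.toAffine.Point :=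
  sat (AddSubgroup.closure (gens t W))

theorem gens_zc {t : Qb} {W W' : WeierstrassCurve Qb} {R : W.toAffine.Point}
    {S : W'.toAffine.Point} (hR : R ∈ gens t W) (hS : S ∈ gens t W') :
    IsOfFinAddOrder (zc R S : CH0 W W') := by
  obtain ⟨lam, y, h, f, hl0, hl1, hf, rfl⟩ := hR
  obtain ⟨mu, y', h', g, hm0, hm1, hg, rfl⟩ := hS
  exact zc_map hf hg (lg_zc hl0 hl1 hm0 hm1 h h')

theorem Gam_zc {t : Qb} {W W' : WeierstrassCurve Qb} [W.IsElliptic] [W'.IsElliptic]
    {R : W.toAffine.Point} {S : W'.toAffine.Point} (hR : R ∈ Gam t W) (hS : S ∈ Gam t W') :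
    IsOfFinAddOrder (zc R S : CH0 W W') := by
  obtain ⟨n, hn, hR⟩ := hR
  obtain ⟨m, hm, hS⟩ := hS
  have h1 : ∀ S ∈ gens t W', ∀ R ∈ AddSubgroup.closure (gens t W),
      IsOfFinAddOrder (zc R S : CH0 W W') := by
    intro S hS R hR
    have h2 : AddSubgroup.closure (gens t W) ≤
        (AddCommGroup.torsion (CH0 W W')).comap ((zHom W W').flip S) := by
      rw [AddSubgroup.closure_le]
      intro R hR
      exact gens_zc hR hS
    exact h2 hR
  have h3 : ∀ R ∈ AddSubgroup.closure (gens t W), ∀ S ∈ AddSubgroup.closure (gens t W'),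
      IsOfFinAddOrder (zc R S : CH0 W W') := by
    intro R hR S hS
    have h2 : AddSubgroup.closure (gens t W') ≤
        (AddCommGroup.torsion (CH0 W W')).comap (zHom W W' R) := by
      rw [AddSubgroup.closure_le]
      intro S hS
      exact h1 S hS R hR
    exact h2 hS
  have h4 := h3 _ hR _ hS
  rw [zc_nsmul_left, zc_nsmul_right] at h4
  rw [isOfFinAddOrder_iff_nsmul_eq_zero] at h4 ⊢
  obtain ⟨l, hl, h5⟩ := h4
  refine ⟨l * (n * m), Nat.mul_pos hl (Nat.mul_pos hn hm), ?_⟩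
  rw [mul_smul, mul_smul]
  exact h5

theorem Gam_rank (W : WeierstrassCurve Qb) [W.IsElliptic] (t : Qb) (ht : 32 ≤ ‖jj t‖) :
    ∃ Q : ℕ → Gam t W, LinearIndependent ℤ Q := by
  by_contra hcon
  push Not at hcon
  set A := Gam t W with hA
  obtain ⟨s, hs1, hs2⟩ := exists_maximal_linearIndepOn ℤ (fun Q : A => (Q : W.toAffine.Point))
  have hfin : s.Finite := by
    by_contra hinf
    have hinf : s.Infinite := hinf
    let e := Set.Infinite.natEmbedding s hinf
    refine hcon (fun n => (e n : A)) ?_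
    apply LinearIndependent.of_comp A.subtype.toIntLinearMap
    exact LinearIndependent.comp hs1 _ e.injective
  obtain ⟨R, hR, hR'⟩ := gens_rank W t ht ((fun Q : A => (Q : W.toAffine.Point)) '' s)
    (hfin.image _)
  have hRA : R ∈ A := ⟨1, one_pos, by rw [one_smul]; exact AddSubgroup.subset_closure hR⟩
  by_cases hRs : (⟨R, hRA⟩ : A) ∈ s
  · apply hR' 1 one_ne_zero
    rw [one_smul]
    exact Submodule.subset_span ⟨_, hRs, rfl⟩
  · obtain ⟨c, hc0, hc⟩ := hs2 _ hRs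
    exact hR' c hc0 hc

theorem exists_mem_Gam (W₀ : WeierstrassCurve Qb) [W₀.IsElliptic] (P : W₀.toAffine.Point) :
    ∃ t : Qb, 32 ≤ ‖jj t‖ ∧ P ∈ Gam t W₀ := by
  by_cases hP : IsOfFinAddOrder P
  · refine ⟨(2 ^ 5)⁻¹, ?_, ?_⟩
    · rw [map_inv₀, map_pow, norm_inv, norm_pow, norm_two]
      norm_num
    · obtain ⟨n, hn, h⟩ := isOfFinAddOrder_iff_nsmul_eq_zero.1 hP
      exact ⟨n, hn, by rw [h]; exact AddSubgroup.zero_mem _⟩
  · obtain ⟨κ, hκ0, hκ1, hκm, hκn, hκp, g, hg⟩ := exists_leg W₀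
    have hgood : Good κ := ⟨hκ0, hκ1, hκm, hκn, hκp⟩
    have hP' : ¬ IsOfFinAddOrder (g.symm P) := by
      intro h
      apply hP
      have := g.toAddMonoidHom.isOfFinAddOrder h
      rwa [AddEquiv.coe_toAddMonoidHom, AddEquiv.apply_symm_apply] at this
    obtain ⟨N, hN, x, y, h, e, hx⟩ := deep_mult (κ ^ 2) (pow_ne_zero 2 hκ0) hgood.sq_ne _ hP' 32
    refine ⟨x, hx.le, N, hN, AddSubgroup.subset_closure ?_⟩
    refine ⟨κ ^ 2, y, h, g, pow_ne_zero 2 hκ0, hgood.sq_ne, hg, ?_⟩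
    rw [← e, map_nsmul, AddEquiv.apply_symm_apply]

/-- homomorphisms given by algebraic maps preserve the subgroups -/
theorem Gam_map {t : Qb} {W W' : WeierstrassCurve Qb}
    (f : W.toAffine.Point →+ W'.toAffine.Point) (hf : AlgMap W W' f) {R : W.toAffine.Point}
    (hR : R ∈ Gam t W) : f R ∈ Gam t W' := by
  obtain ⟨n, hn, hR⟩ := hR
  refine ⟨n, hn, ?_⟩
  rw [← map_nsmul]
  have h2 : AddSubgroup.closure (gens t W) ≤
      (AddSubgroup.closure (gens t W')).comap f := by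
    rw [AddSubgroup.closure_le]
    rintro R ⟨lam, y, h, g, hl0, hl1, hg, rfl⟩
    exact AddSubgroup.subset_closure ⟨lam, y, h, f ∘ g, hl0, hl1, hf.comp hg, rfl⟩
  exact h2 hR

/-- **Main theorem.** -/
theorem main (W₀ : WeierstrassCurve Qb) [W₀.IsElliptic] (P : W₀.toAffine.Point) :
    ∃ Γ : ∀ W : WeierstrassCurve Qb, AddSubgroup W.toAffine.Point, P ∈ Γ W₀ ∧
      (∀ W : WeierstrassCurve Qb, W.IsElliptic → ∃ Q : ℕ → Γ W, LinearIndependent ℤ Q) ∧
      ∀ (r : ℕ) (W : Fin r → WeierstrassCurve Qb), (∀ i, (W i).IsElliptic) →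
        ∀ c : Pts W →₀ ℤ, (∀ a ∈ c.support, ∀ i, a i ∈ Γ (W i)) → (c.sum fun _ n => n) = 0 →
          (∀ i, IsOfFinAddOrder (c.sum fun a n => n • a i)) → IsOfFinAddOrder (cls W c) := by
  obtain ⟨t, ht, hP⟩ := exists_mem_Gam W₀ P
  refine ⟨Gam t, hP, fun W hW => Gam_rank W t ht, fun r W hW c hc hdeg hsum => ?_⟩
  exact cls_torsion W (fun i => Gam t (W i)) (fun i j _ P hP Q hQ => Gam_zc hP hQ) c hc hdeg hsum

end Pool.Agent.LibIG50
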