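import Pool.Agent.LibIG50.Defs
import Pool.Agent.LibBH2.Family
import Pool.Agent.LibBH2.Curves

/-!
Legendre curves, algebraic maps between elliptic curves, the 2-adic absolute value of the
algebraic numbers, deep maps.
-/

open scoped Classical
open WeierstrassCurve Pool.Agent.LibBH2

namespace Pool.Agent.LibIG50

section gen

variable {k : Type} [Field k]

/-- The Legendre curve `y ^ 2 = x (x - 1) (x - lam)`. -/
def lg (lam : k) : WeierstrassCurve k := ⟨0, -(1 + lam), 0, lam, 0⟩

/-- Maps between the sets of points of two curves that send `0` to `0` and are compatible with the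
specialisation of points over function fields. -/
def AlgMap (W W' : WeierstrassCurve k) (f : W.toAffine.Point → W'.toAffine.Point) : Prop :=
  f 0 = 0 ∧ ∀ (K : Type) [Field K] [Algebra k K] (T : (W⁄K).toAffine.Point),
    ∃ T' : (W'⁄K).toAffine.Point, ∀ (v : Place k K) (p : W.toAffine.Point),
      Spec v T p → Spec v T' (f p)

end gen

/-- an algebraic closure of the field of `2`-adic numbers -/
abbrev L2 : Type := PadicAlgCl 2

theorem exists_embedding : Nonempty (Qb →+* L2) := by
  have h1 : @Algebra.IsAlgebraic ℚ Qb _ _ (AlgebraicClosure.instAlgebra ℚ) :=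
    AlgebraicClosure.isAlgebraic ℚ
  letI := AlgebraicClosure.instAlgebra ℚ (R := ℚ)
  exact ⟨(IsAlgClosed.lift (R := ℚ) (S := Qb) (M := L2)).toRingHom⟩

/-- an embedding of the algebraic numbers into `L2` -/
noncomputable def jj : Qb →+* L2 := exists_embedding.some

/-- A deep map between two Legendre curves over the algebraic numbers: an algebraic map that is
asymptotically `x ↦ C x` for `2`-adically large `x`. -/
structure IsDeep (lam mu : Qb) (C : Qb)
    (f : (lg lam).toAffine.Point → (lg mu).toAffine.Point) : Prop where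
  alg : AlgMap (lg lam) (lg mu) f
  one_le : 1 ≤ ‖jj C‖
  asym : ∀ (x y : Qb) (h : (lg lam).toAffine.Nonsingular x y), 1 < ‖jj x‖ →
    ∃ (X Y : Qb) (H : (lg mu).toAffine.Nonsingular X Y),
      f (Affine.Point.some x y h) = Affine.Point.some X Y H ∧
        ‖jj (X / (C * x) - 1)‖ ≤ 1 / ‖jj x‖

/-- the generators of the isotropic subgroup of `W`: images of points of abscissa `t` of
Legendre curves -/
def gens (t : Qb) (W : WeierstrassCurve Qb) : Set W.toAffine.Point :=
  {R | ∃ (lam y : Qb) (h : (lg lam).toAffine.Nonsingular t y)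
    (f : (lg lam).toAffine.Point → W.toAffine.Point),
    lam ≠ 0 ∧ lam ≠ 1 ∧ AlgMap (lg lam) W f ∧ R = f (Affine.Point.some t y h)}

end Pool.Agent.LibIG50
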