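import Pool.Agent.LibBH2.CH0

/-!
Zero-cycles on a product of finitely many elliptic curves over an algebraically closed field.
-/

open scoped Classical
open WeierstrassCurve Pool.Agent.LibBH2

namespace Pool.Agent.LibIG50

variable {k : Type} [Field k]

/-- The points of the product `W 0 × ... × W (r - 1)`. -/
abbrev Pts {r : ℕ} (W : Fin r → WeierstrassCurve k) : Type := ∀ i, (W i).toAffine.Point

/-- The zero-cycle `c` on the product of the curves `W i` is the push-forward of the divisor of a
function `φ` on a curve: `K` is a function field of one variable over `k` (finite over `k(s)`), `T`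
is a `K`-point of the product, i.e. a map from the curve of `K` to the product, and `c` is the sum
over the places `v` of `K` of `ord_v φ` times the value of `T` at `v`. -/
def IsPrincipalN {r : ℕ} (W : Fin r → WeierstrassCurve k) (c : Pts W →₀ ℤ) : Prop :=
  ∃ (K : Type) (_ : Field K) (_ : Algebra k K) (ι : RatFunc k →ₐ[k] K)
    (T : ∀ i, ((W i)⁄K).toAffine.Point) (φ : K) (S : Finset (Place k K))
    (p : Place k K → Pts W),
    ι.toRingHom.Finite ∧ φ ≠ 0 ∧ (∀ v, v.ord φ ≠ 0 → v ∈ S) ∧
    (∀ v ∈ S, ∀ i, Spec v (T i) (p v i)) ∧
    c = ∑ v ∈ S, Finsupp.single (p v) (v.ord φ)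

/-- The Chow group of zero-cycles of the product of the curves `W i` (for `k` algebraically closed):
finite formal `ℤ`-combinations of points modulo rational equivalence. -/
def CHN {r : ℕ} (W : Fin r → WeierstrassCurve k) : Type :=
  (Pts W →₀ ℤ) ⧸ AddSubgroup.closure {c | IsPrincipalN W c}

noncomputable instance {r : ℕ} (W : Fin r → WeierstrassCurve k) : AddCommGroup (CHN W) :=
  inferInstanceAs (AddCommGroup (_ ⧸ AddSubgroup.closure {c | IsPrincipalN W c}))

/-- The class of a zero-cycle in the Chow group. -/
noncomputable def cls {r : ℕ} (W : Fin r → WeierstrassCurve k) (c : Pts W →₀ ℤ) : CHN W :=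
  QuotientAddGroup.mk' (AddSubgroup.closure {c | IsPrincipalN W c}) c

end Pool.Agent.LibIG50
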