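import Pool.Agent.LibIG50.Base

/-!
Task A: algebraic maps push forward zero-cycles.
-/

open scoped Classical
open WeierstrassCurve Pool.Agent.LibBH2

namespace Pool.Agent.LibIG50

variable {k : Type} [Field k]

theorem AlgMap.id' (W : WeierstrassCurve k) : AlgMap W W id :=
  ⟨rfl, fun _ _ _ T => ⟨T, fun _ _ h => h⟩⟩

theorem AlgMap.comp {W W' W'' : WeierstrassCurve k} {f : W.toAffine.Point → W'.toAffine.Point}
    {g : W'.toAffine.Point → W''.toAffine.Point} (hg : AlgMap W' W'' g) (hf : AlgMap W W' f) :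
    AlgMap W W'' (g ∘ f) := by
  refine ⟨?_, fun K _ _ T => ?_⟩
  · rw [Function.comp_apply, hf.1, hg.1]
  · obtain ⟨T', hT'⟩ := hf.2 K T
    obtain ⟨T'', hT''⟩ := hg.2 K T'
    exact ⟨T'', fun v p h => hT'' v _ (hT' v p h)⟩

/-- push-forward of cycles -/
theorem isPrincipal_map {W₁ W₂ W₁' W₂' : WeierstrassCurve k}
    {f : W₁.toAffine.Point → W₁'.toAffine.Point} {g : W₂.toAffine.Point → W₂'.toAffine.Point}
    (hf : AlgMap W₁ W₁' f) (hg : AlgMap W₂ W₂' g)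
    {c : (W₁.toAffine.Point × W₂.toAffine.Point) →₀ ℤ} (hc : IsPrincipal W₁ W₂ c) :
    IsPrincipal W₁' W₂' (Finsupp.mapDomain.addMonoidHom (Prod.map f g) c) := by
  obtain ⟨K, i1, i2, ι, T₁, T₂, φ, S, p₁, p₂, hι, hφ, hS, hp, rfl⟩ := hc
  obtain ⟨T₁', h₁⟩ := hf.2 K T₁
  obtain ⟨T₂', h₂⟩ := hg.2 K T₂
  refine ⟨K, i1, i2, ι, T₁', T₂', φ, S, fun v => f (p₁ v), fun v => g (p₂ v), hι, hφ, hS,
    fun v hv => ⟨h₁ v _ (hp v hv).1, h₂ v _ (hp v hv).2⟩, ?_⟩
  rw [map_sum]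
  refine Finset.sum_congr rfl fun v _ => ?_
  exact Finsupp.mapDomain_single

/-- push-forward: `(P, Q) ↦ (f P, g Q)` -/
theorem zc_map {W₁ W₂ W₁' W₂' : WeierstrassCurve k} {f : W₁.toAffine.Point → W₁'.toAffine.Point}
    {g : W₂.toAffine.Point → W₂'.toAffine.Point} (hf : AlgMap W₁ W₁' f) (hg : AlgMap W₂ W₂' g)
    {P : W₁.toAffine.Point} {Q : W₂.toAffine.Point} (h : IsOfFinAddOrder (zc P Q : CH0 W₁ W₂)) :
    IsOfFinAddOrder (zc (f P) (g Q) : CH0 W₁' W₂') := by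
  set F := Finsupp.mapDomain.addMonoidHom (M := ℤ) (Prod.map f g) with hF
  have hle : AddSubgroup.closure {c | IsPrincipal W₁ W₂ c} ≤
      (AddSubgroup.closure {c | IsPrincipal W₁' W₂' c}).comap F := by
    rw [AddSubgroup.closure_le]
    intro c hc
    exact AddSubgroup.subset_closure (isPrincipal_map hf hg hc)
  let G : CH0 W₁ W₂ →+ CH0 W₁' W₂' := QuotientAddGroup.map _ _ F hle
  have hpt : ∀ (P : W₁.toAffine.Point) (Q : W₂.toAffine.Point),
      G (pt P Q) = pt (f P) (g Q) := by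
    intro P Q
    change QuotientAddGroup.mk' _ (F (Finsupp.single (P, Q) 1)) = _
    rw [pt]
    congr 1
    exact Finsupp.mapDomain_single
  have h2 : G (zc P Q) = zc (f P) (g Q) := by
    unfold zc
    rw [map_add, map_sub, map_sub, hpt, hpt, hpt, hpt, hf.1, hg.1]
  rw [← h2]
  exact G.isOfFinAddOrder h

end Pool.Agent.LibIG50
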