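import Pool.Agent.LibIG50.Base

/-!
Task C: the Landen isogeny of degree two.
-/

open scoped Classical
open WeierstrassCurve Pool.Agent.LibBH2

namespace Pool.Agent.LibIG50

namespace TC

/-- the equation of a Legendre curve over an extension -/
theorem eqnK {k : Type} [Field k] (K : Type) [Field K] [Algebra k K] (lam : k) (x y : K) :
    ((lg lam)⁄K).toAffine.Equation x y ↔
      y ^ 2 = x * (x - 1) * (x - algebraMap k K lam) := by
  rw [Affine.equation_iff]
  simp only [lg, baseChange, map_a₁, map_a₂, map_a₃, map_a₄, map_a₆, map_zero, map_neg, map_add,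
    map_one]
  constructor
  · intro h; linear_combination h
  · intro h; linear_combination h

theorem eqn {k : Type} [Field k] (lam x y : k) :
    (lg lam).toAffine.Equation x y ↔ y ^ 2 = x * (x - 1) * (x - lam) := by
  rw [Affine.equation_iff]
  simp only [lg]
  constructor
  · intro h; linear_combination h
  · intro h; linear_combination h

theorem delta {k : Type} [Field k] (lam : k) : (lg lam).Δ = 16 * lam ^ 2 * (lam - 1) ^ 2 := by
  simp only [lg, WeierstrassCurve.Δ, WeierstrassCurve.b₂, WeierstrassCurve.b₄,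
    WeierstrassCurve.b₆, WeierstrassCurve.b₈]
  ring

theorem delta_ne {k : Type} [Field k] [CharZero k] {lam : k} (h0 : lam ≠ 0) (h1 : lam ≠ 1) :
    (lg lam).Δ ≠ 0 := by
  rw [delta]
  have : lam - 1 ≠ 0 := sub_ne_zero.2 h1
  exact mul_ne_zero (mul_ne_zero (by norm_num) (pow_ne_zero 2 h0)) (pow_ne_zero 2 this)

theorem nonsK {k : Type} [Field k] [CharZero k] (K : Type) [Field K] [Algebra k K] {lam : k}
    (h0 : lam ≠ 0) (h1 : lam ≠ 1) (x y : K)
    (h : y ^ 2 = x * (x - 1) * (x - algebraMap k K lam)) :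
    ((lg lam)⁄K).toAffine.Nonsingular x y := by
  have hD : ((lg lam)⁄K).Δ ≠ 0 := by
    rw [baseChange, map_Δ]
    exact (_root_.map_ne_zero _).2 (delta_ne h0 h1)
  exact (Affine.equation_iff_nonsingular_of_Δ_ne_zero (W := (lg lam)⁄K) hD).1
    ((eqnK K lam x y).2 h)

theorem nons {k : Type} [Field k] [CharZero k] {lam : k}
    (h0 : lam ≠ 0) (h1 : lam ≠ 1) (x y : k)
    (h : y ^ 2 = x * (x - 1) * (x - lam)) :
    (lg lam).toAffine.Nonsingular x y :=
  (Affine.equation_iff_nonsingular_of_Δ_ne_zero (W := lg lam) (delta_ne h0 h1)).1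
    ((eqn lam x y).2 h)

/-- the algebraic identity behind the Landen map -/
theorem key {L : Type} [Field L] (h2 : (2 : L) ≠ 0) {a b : L} (h : b ^ 2 * (1 + a) ^ 2 = 4 * a)
    {x y : L} (hx : x ≠ 1) (e : y ^ 2 = x * (x - 1) * (x - b ^ 2)) :
    (((1 + a) / 2) ^ 3 * (y * (1 - (1 - b ^ 2) / (x - 1) ^ 2))) ^ 2 =
      ((1 + a) ^ 2 / 4 * (x * (x - b ^ 2) / (x - 1))) *
      ((1 + a) ^ 2 / 4 * (x * (x - b ^ 2) / (x - 1)) - 1) *
      ((1 + a) ^ 2 / 4 * (x * (x - b ^ 2) / (x - 1)) - a ^ 2) := by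
  have hx1 : x - 1 ≠ 0 := sub_ne_zero.2 hx
  have h4 : (4 : L) ≠ 0 := by
    have : (4 : L) = 2 * 2 := by norm_num
    rw [this]; exact mul_ne_zero h2 h2
  set c := (1 + a) / 2 with hc
  have ha : a = 2 * c - 1 := by rw [hc]; field_simp; ring
  have hC : (1 + a) ^ 2 / 4 = c ^ 2 := by
    rw [hc, div_pow]
    norm_num
  have hb : c ^ 2 * b ^ 2 = a := by
    rw [← hC]
    field_simp
    linear_combination h
  rw [hC]
  have e1 : c ^ 2 * (x * (x - b ^ 2) / (x - 1)) - 1 = (c * x - 1) ^ 2 / (x - 1) := by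
    rw [eq_div_iff hx1, sub_mul, mul_assoc, div_mul_cancel₀ _ hx1]
    linear_combination (-x) * hb - x * ha
  have e2 : c ^ 2 * (x * (x - b ^ 2) / (x - 1)) - a ^ 2 = (c * x - a) ^ 2 / (x - 1) := by
    rw [eq_div_iff hx1, sub_mul, mul_assoc, div_mul_cancel₀ _ hx1]
    linear_combination (-x) * hb - a * x * ha
  have e3 : 1 - (1 - b ^ 2) / (x - 1) ^ 2 = ((x - 1) ^ 2 - (1 - b ^ 2)) / (x - 1) ^ 2 := by
    field_simp
  rw [e1, e2, e3]
  have e4 : c ^ 2 * ((x - 1) ^ 2 - (1 - b ^ 2)) = (c * x - 1) * (c * x - a) := by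
    linear_combination hb + c * x * ha
  have e5 : (c ^ 3 * (y * (((x - 1) ^ 2 - (1 - b ^ 2)) / (x - 1) ^ 2))) ^ 2 =
      c ^ 2 * y ^ 2 * (c ^ 2 * ((x - 1) ^ 2 - (1 - b ^ 2))) ^ 2 / (x - 1) ^ 4 := by
    field_simp
  rw [e5, e4, e]
  field_simp

theorem sq_ne_one' {L : Type} [Field L] {a : L} (h1 : a ≠ 1) (h2 : a ≠ -1) : a ^ 2 ≠ 1 := by
  intro h
  have h3 : (a - 1) * (a + 1) = 0 := by linear_combination h
  rcases mul_eq_zero.1 h3 with h | h
  · exact h1 (sub_eq_zero.1 h)
  · exact h2 (eq_neg_of_add_eq_zero_left h)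

/-- the parameter of the source is not `1` -/
theorem b_ne_one {L : Type} [Field L] {a b : L} (h1 : a ≠ 1)
    (h : b ^ 2 * (1 + a) ^ 2 = 4 * a) : b ^ 2 ≠ 1 := by
  intro hb
  rw [hb] at h
  have h3 : (a - 1) ^ 2 = 0 := by linear_combination h
  exact h1 (sub_eq_zero.1 (pow_eq_zero_iff (by norm_num) |>.1 h3))

section map

variable {k : Type} [Field k] [CharZero k] {a b : k}

/-- the Landen map over an extension of `k` -/
noncomputable def lanK (K : Type) [Field K] [Algebra k K] (h0 : a ≠ 0) (h1 : a ≠ 1) (h2 : a ≠ -1)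
    (h : b ^ 2 * (1 + a) ^ 2 = 4 * a) :
    ((lg (b ^ 2))⁄K).toAffine.Point → ((lg (a ^ 2))⁄K).toAffine.Point
  | .zero => .zero
  | .some x y hxy =>
    if hx : x = 1 then .zero else
      .some ((1 + algebraMap k K a) ^ 2 / 4 * (x * (x - algebraMap k K b ^ 2) / (x - 1)))
        (((1 + algebraMap k K a) / 2) ^ 3 *
          (y * (1 - (1 - algebraMap k K b ^ 2) / (x - 1) ^ 2)))
        (by
          apply nonsK K (pow_ne_zero 2 h0) (sq_ne_one' h1 h2)
          have e := (eqnK K _ x y).1 hxy.1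
          rw [map_pow] at e ⊢
          have : CharZero K := charZero_of_injective_algebraMap (algebraMap k K).injective
          refine key two_ne_zero ?_ hx e
          have h4 := congrArg (algebraMap k K) h
          simpa only [map_mul, map_pow, map_add, map_one, map_ofNat] using h4)

/-- the Landen map over `k` -/
noncomputable def lan (h0 : a ≠ 0) (h1 : a ≠ 1) (h2 : a ≠ -1)
    (h : b ^ 2 * (1 + a) ^ 2 = 4 * a) :
    (lg (b ^ 2)).toAffine.Point → (lg (a ^ 2)).toAffine.Point
  | .zero => .zero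
  | .some x y hxy =>
    if hx : x = 1 then .zero else
      .some ((1 + a) ^ 2 / 4 * (x * (x - b ^ 2) / (x - 1)))
        (((1 + a) / 2) ^ 3 * (y * (1 - (1 - b ^ 2) / (x - 1) ^ 2)))
        (by
          apply nons (pow_ne_zero 2 h0) (sq_ne_one' h1 h2)
          exact key two_ne_zero h hx ((eqn _ x y).1 hxy.1))

variable (h0 : a ≠ 0) (h1 : a ≠ 1) (h2 : a ≠ -1) (h : b ^ 2 * (1 + a) ^ 2 = 4 * a)

omit [CharZero k] in
theorem ord_sub_const {K : Type} [Field K] [Algebra k K] {v : Place k K} {x : K}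
    (hx : v.ord x < 0) (c : k) :
    x - algebraMap k K c ≠ 0 ∧ v.ord (x - algebraMap k K c) = v.ord x := by
  have hx0 : x ≠ 0 := by rintro rfl; rw [v.ord_zero] at hx; exact lt_irrefl _ hx
  by_cases hc : c = 0
  · subst hc; simpa using hx0
  have h1 : v.ord (-(algebraMap k K c)) = 0 := by rw [Place.ord_neg, v.ord_const c hc]
  have h2 := Place.ord_add_of_lt (v := v) (f := x) (g := -(algebraMap k K c)) hx0
    (by simpa using hc) (by rw [h1]; exact hx)
  rwa [← sub_eq_add_neg] at h2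

theorem spec_lan {K : Type} [Field K] [Algebra k K] (v : Place k K)
    (T : ((lg (b ^ 2))⁄K).toAffine.Point) (p : (lg (b ^ 2)).toAffine.Point) (hs : Spec v T p) :
    Spec v (lanK K h0 h1 h2 h T) (lan h0 h1 h2 h p) := by
  have : CharZero K := charZero_of_injective_algebraMap (algebraMap k K).injective
  have hb0 : b ≠ 0 := by
    rintro rfl
    apply h0
    have : (4 : k) * a = 0 := by rw [← h]; ring
    simpa using this
  have ha1 : 1 + a ≠ 0 := fun h3 => h2 (eq_neg_of_add_eq_zero_right h3)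
  have hCe : (1 + algebraMap k K a) ^ 2 / 4 = algebraMap k K ((1 + a) ^ 2 / 4) := by
    simp only [map_div₀, map_pow, map_add, map_one, map_ofNat]
  have hC3e : ((1 + algebraMap k K a) / 2) ^ 3 = algebraMap k K (((1 + a) / 2) ^ 3) := by
    simp only [map_div₀, map_pow, map_add, map_one, map_ofNat]
  have hC00 : (1 + a) ^ 2 / 4 ≠ 0 := div_ne_zero (pow_ne_zero 2 ha1) (by norm_num)
  have hC : v.ord ((1 + algebraMap k K a) ^ 2 / 4) = 0 := by
    rw [hCe]
    exact v.ord_const _ hC00
  have hC0 : (1 + algebraMap k K a) ^ 2 / 4 ≠ 0 := by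
    rw [hCe]
    exact (_root_.map_ne_zero _).2 hC00
  match T, p, hs with
  | .zero, p, hs =>
    have hp : p = 0 := hs
    subst hp
    exact rfl
  | .some x y hxy, .zero, hs =>
    have hx : v.ord x < 0 := hs
    have hx0 : x ≠ 0 := by rintro rfl; rw [v.ord_zero] at hx; exact lt_irrefl _ hx
    have hx1 : x ≠ 1 := by rintro rfl; rw [v.ord_one] at hx; exact lt_irrefl _ hx
    have e1 := ord_sub_const hx (b ^ 2)
    have e2 := ord_sub_const hx (1 : k)
    rw [map_one] at e2
    rw [map_pow] at e1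
    change Spec v (if hx : x = 1 then _ else _) (Affine.Point.zero)
    rw [dif_neg hx1]
    change v.ord _ < 0
    rw [v.ord_mul _ _ hC0 (div_ne_zero (mul_ne_zero hx0 e1.1) e2.1),
      v.ord_div _ _ (mul_ne_zero hx0 e1.1) e2.1, v.ord_mul _ _ hx0 e1.1, hC, e1.2, e2.2]
    omega
  | .some x y hxy, .some x₀ y₀ hxy₀, hs =>
    have hx : v.Zer (x - algebraMap k K x₀) := hs.1
    have hy : v.Zer (y - algebraMap k K y₀) := hs.2
    by_cases hx1 : x = 1
    · subst hx1
      have h3 : x₀ = 1 := by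
        have : v.Zer (1 - algebraMap k K x₀ - (0 : K)) := by simpa using hx
        have h4 : v.Zer (algebraMap k K (1 - x₀)) := by simpa using hx
        rw [Place.zer_const_iff] at h4
        exact (sub_eq_zero.1 h4).symm
      subst h3
      have e1 : lanK K h0 h1 h2 h (.some 1 y hxy) = .zero := dif_pos rfl
      have e2 : lan h0 h1 h2 h (.some 1 y₀ hxy₀) = .zero := dif_pos rfl
      rw [e1, e2]
      exact rfl
    · by_cases hx2 : x₀ = 1
      · subst hx2
        have e2 : lan h0 h1 h2 h (.some 1 y₀ hxy₀) = .zero := dif_pos rfl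
        rw [e2]
        change Spec v (if hx : x = 1 then _ else _) (Affine.Point.zero)
        rw [dif_neg hx1]
        change v.ord _ < 0
        have hx3 : x - 1 ≠ 0 := sub_ne_zero.2 hx1
        have hx4 : 0 < v.ord (x - 1) := by
          rw [map_one] at hx
          exact hx.resolve_left hx3
        have hx5 : v.ord x = 0 := Place.ord_eq_zero_of_val hx one_ne_zero
        have hx6 : x ≠ 0 := Place.ne_zero_of_val hx one_ne_zero
        have hb1 : 1 - b ^ 2 ≠ 0 := sub_ne_zero.2 (b_ne_one h1 h).symm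
        have hx7 : v.Zer (x - algebraMap k K b ^ 2 - algebraMap k K (1 - b ^ 2)) := by
          have := Place.val_sub hx (Place.val_const (v := v) (b ^ 2))
          rwa [map_pow] at this
        have hx8 : v.ord (x - algebraMap k K b ^ 2) = 0 := Place.ord_eq_zero_of_val hx7 hb1
        have hx9 : x - algebraMap k K b ^ 2 ≠ 0 := Place.ne_zero_of_val hx7 hb1
        rw [v.ord_mul _ _ hC0 (div_ne_zero (mul_ne_zero hx6 hx9) hx3),
          v.ord_div _ _ (mul_ne_zero hx6 hx9) hx3, v.ord_mul _ _ hx6 hx9, hC, hx5, hx8]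
        omega
      · change Spec v (if hx : x = 1 then _ else _) (if hx : x₀ = 1 then _ else _)
        rw [dif_neg hx1, dif_neg hx2]
        have hx3 : x₀ - 1 ≠ 0 := sub_ne_zero.2 hx2
        have hm : v.Zer (x - 1 - algebraMap k K (x₀ - 1)) := by
          have := Place.val_sub hx (Place.val_const (v := v) (1 : k))
          rwa [map_one] at this
        have hbb : v.Zer (x - algebraMap k K b ^ 2 - algebraMap k K (x₀ - b ^ 2)) := by
          have := Place.val_sub hx (Place.val_const (v := v) (b ^ 2))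
          rwa [map_pow] at this
        have hC : v.Zer ((1 + algebraMap k K a) ^ 2 / 4 - algebraMap k K ((1 + a) ^ 2 / 4)) := by
          rw [hCe, sub_self]; exact v.zer_zero
        have hC3 : v.Zer (((1 + algebraMap k K a) / 2) ^ 3 -
            algebraMap k K (((1 + a) / 2) ^ 3)) := by
          rw [hC3e, sub_self]; exact v.zer_zero
        have hB : v.Zer (1 - algebraMap k K b ^ 2 - algebraMap k K (1 - b ^ 2)) := by
          simp [Place.zer_zero]
        have h1' : v.Zer ((1 : K) - algebraMap k K 1) := by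
          simp [Place.zer_zero]
        constructor
        · exact Place.val_mul hC (Place.val_div (Place.val_mul hx hbb) hm hx3)
        · exact Place.val_mul hC3 (Place.val_mul hy (Place.val_sub h1'
            (Place.val_div hB (Place.val_pow hm 2) (pow_ne_zero 2 hx3))))

end map

end TC

variable {k : Type} [Field k]

/-- The isogeny of degree two `lg (b ^ 2) → lg (a ^ 2)` for `b ^ 2 (1 + a) ^ 2 = 4 a`; its kernel is
generated by `(1, 0)`. -/
theorem exists_lan [CharZero k] (a b : k) (h0 : a ≠ 0) (h1 : a ≠ 1) (h2 : a ≠ -1)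
    (h : b ^ 2 * (1 + a) ^ 2 = 4 * a) :
    ∃ f : (lg (b ^ 2)).toAffine.Point → (lg (a ^ 2)).toAffine.Point,
      AlgMap (lg (b ^ 2)) (lg (a ^ 2)) f ∧
      ∀ (x y : k) (hxy : (lg (b ^ 2)).toAffine.Nonsingular x y), x ≠ 1 →
        ∃ H : (lg (a ^ 2)).toAffine.Nonsingular ((1 + a) ^ 2 / 4 * (x * (x - b ^ 2) / (x - 1)))
            (((1 + a) / 2) ^ 3 * (y * (1 - (1 - b ^ 2) / (x - 1) ^ 2))),
          f (Affine.Point.some x y hxy) = Affine.Point.some _ _ H := by
  refine ⟨TC.lan h0 h1 h2 h, ⟨rfl, fun K _ _ T => ⟨TC.lanK K h0 h1 h2 h T, fun v p hs =>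
    TC.spec_lan h0 h1 h2 h v T p hs⟩⟩, fun x y hxy hx => ⟨?_, ?_⟩⟩
  · apply TC.nons (pow_ne_zero 2 h0) (TC.sq_ne_one' h1 h2)
    exact TC.key two_ne_zero h hx ((TC.eqn _ x y).1 hxy.1)
  · exact dif_neg hx

end Pool.Agent.LibIG50
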