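import Pool.Agent.LibIG50.Base

/-!
Task D, part 1: affine changes of coordinates of Weierstrass curves.
-/

open scoped Classical
open WeierstrassCurve Pool.Agent.LibBH2 Polynomial

namespace Pool.Agent.LibIG50

namespace TD1

open WeierstrassCurve.Affine

/-- the relations between the coefficients of two Weierstrass curves `W`, `W'` with
`X = u² x + r`, `Y = u³ y + s u² x + t` (lower case: `W`). -/
structure Rel {L : Type} [Field L] (W W' : WeierstrassCurve L) (u r s t : L) : Prop where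
  h0 : u ≠ 0
  h1 : u * W.a₁ = W'.a₁ + 2 * s
  h2 : u ^ 2 * W.a₂ = W'.a₂ - s * W'.a₁ + 3 * r - s ^ 2
  h3 : u ^ 3 * W.a₃ = W'.a₃ + r * W'.a₁ + 2 * t
  h4 : u ^ 4 * W.a₄ = W'.a₄ - s * W'.a₃ + 2 * r * W'.a₂ - (t + r * s) * W'.a₁ + 3 * r ^ 2 -
    2 * s * t
  h6 : u ^ 6 * W.a₆ = W'.a₆ + r * W'.a₄ + r ^ 2 * W'.a₂ + r ^ 3 - t * W'.a₃ - t ^ 2 -
    r * t * W'.a₁

variable {L : Type} [Field L] {W W' : WeierstrassCurve L} {u r s t : L}

theorem eqn_iff (R : Rel W W' u r s t) (x y : L) :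
    W'.toAffine.Equation (u ^ 2 * x + r) (u ^ 3 * y + s * u ^ 2 * x + t) ↔
      W.toAffine.Equation x y := by
  obtain ⟨h0, h1, h2, h3, h4, h6⟩ := R
  rw [equation_iff, equation_iff]
  have key : ((u ^ 3 * y + s * u ^ 2 * x + t) ^ 2 + W'.a₁ * (u ^ 2 * x + r) *
      (u ^ 3 * y + s * u ^ 2 * x + t) + W'.a₃ * (u ^ 3 * y + s * u ^ 2 * x + t)) -
      ((u ^ 2 * x + r) ^ 3 + W'.a₂ * (u ^ 2 * x + r) ^ 2 + W'.a₄ * (u ^ 2 * x + r) + W'.a₆) =
      u ^ 6 * ((y ^ 2 + W.a₁ * x * y + W.a₃ * y) - (x ^ 3 + W.a₂ * x ^ 2 + W.a₄ * x + W.a₆)) := by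
    linear_combination (-(u ^ 5 * x * y)) * h1 + (u ^ 4 * x ^ 2) * h2 - (u ^ 3 * y) * h3 +
      (u ^ 2 * x) * h4 + h6
  constructor
  · intro h
    have h5 : u ^ 6 * ((y ^ 2 + W.a₁ * x * y + W.a₃ * y) -
        (x ^ 3 + W.a₂ * x ^ 2 + W.a₄ * x + W.a₆)) = 0 := by
      rw [← key, sub_eq_zero]; exact h
    rcases mul_eq_zero.1 h5 with h7 | h7
    · exact absurd h7 (pow_ne_zero 6 h0)
    · exact sub_eq_zero.1 h7
  · intro h
    have h5 : ((y ^ 2 + W.a₁ * x * y + W.a₃ * y) -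
        (x ^ 3 + W.a₂ * x ^ 2 + W.a₄ * x + W.a₆)) = 0 := sub_eq_zero.2 h
    rw [h5, mul_zero] at key
    exact sub_eq_zero.1 key

theorem nons_iff (R : Rel W W' u r s t) (x y : L) :
    W'.toAffine.Nonsingular (u ^ 2 * x + r) (u ^ 3 * y + s * u ^ 2 * x + t) ↔
      W.toAffine.Nonsingular x y := by
  rw [nonsingular_iff, nonsingular_iff, eqn_iff R]
  obtain ⟨h0, h1, h2, h3, h4, h6⟩ := R
  refine and_congr_right fun _ => ?_
  have eY : (u ^ 3 * y + s * u ^ 2 * x + t) - (-(u ^ 3 * y + s * u ^ 2 * x + t) -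
      W'.a₁ * (u ^ 2 * x + r) - W'.a₃) = u ^ 3 * (y - (-y - W.a₁ * x - W.a₃)) := by
    linear_combination (-(u ^ 2 * x)) * h1 - h3
  have eX : W'.a₁ * (u ^ 3 * y + s * u ^ 2 * x + t) - (3 * (u ^ 2 * x + r) ^ 2 +
      2 * W'.a₂ * (u ^ 2 * x + r) + W'.a₄) =
      u ^ 4 * (W.a₁ * y - (3 * x ^ 2 + 2 * W.a₂ * x + W.a₄)) -
        s * u ^ 3 * (y - (-y - W.a₁ * x - W.a₃)) := by
    linear_combination (-(u ^ 3 * y) + s * u ^ 2 * x) * h1 + (2 * u ^ 2 * x) * h2 + s * h3 + h4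
  have hu3 : u ^ 3 ≠ 0 := pow_ne_zero 3 h0
  have hu4 : u ^ 4 ≠ 0 := pow_ne_zero 4 h0
  rw [← not_iff_not]
  push Not
  constructor
  · rintro ⟨e1, e2⟩
    have e3 : y - (-y - W.a₁ * x - W.a₃) = 0 := by
      rw [sub_eq_zero.2 e2] at eY
      exact (mul_eq_zero.1 eY.symm).resolve_left hu3
    rw [sub_eq_zero.2 e1, e3, mul_zero, sub_zero] at eX
    exact ⟨sub_eq_zero.1 ((mul_eq_zero.1 eX.symm).resolve_left hu4), sub_eq_zero.1 e3⟩
  · rintro ⟨e1, e2⟩
    rw [sub_eq_zero.2 e2, mul_zero] at eY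
    rw [sub_eq_zero.2 e1, sub_eq_zero.2 e2, mul_zero, mul_zero, sub_zero] at eX
    exact ⟨sub_eq_zero.1 eX, sub_eq_zero.1 eY⟩

theorem negY_vc (R : Rel W W' u r s t) (x y : L) :
    W'.toAffine.negY (u ^ 2 * x + r) (u ^ 3 * y + s * u ^ 2 * x + t) =
      u ^ 3 * W.toAffine.negY x y + s * u ^ 2 * x + t := by
  obtain ⟨h0, h1, h2, h3, h4, h6⟩ := R
  simp only [negY]
  linear_combination (u ^ 2 * x) * h1 + h3

theorem slope_vc (R : Rel W W' u r s t) {x₁ x₂ y₁ y₂ : L} (E₁ : W.toAffine.Equation x₁ y₁)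
    (E₂ : W.toAffine.Equation x₂ y₂) (hxy : ¬(x₁ = x₂ ∧ y₁ = W.toAffine.negY x₂ y₂)) :
    W'.toAffine.slope (u ^ 2 * x₁ + r) (u ^ 2 * x₂ + r) (u ^ 3 * y₁ + s * u ^ 2 * x₁ + t)
      (u ^ 3 * y₂ + s * u ^ 2 * x₂ + t) = u * W.toAffine.slope x₁ x₂ y₁ y₂ + s := by
  have R' := R
  obtain ⟨h0, h1, h2, h3, h4, h6⟩ := R
  by_cases hx : x₁ = x₂
  · subst hx
    have hy : y₁ ≠ W.toAffine.negY x₁ y₂ := fun h => hxy ⟨rfl, h⟩
    have hy12 : y₁ = y₂ := Y_eq_of_Y_ne E₁ E₂ rfl hy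
    subst hy12
    have hy' : u ^ 3 * y₁ + s * u ^ 2 * x₁ + t ≠
        W'.toAffine.negY (u ^ 2 * x₁ + r) (u ^ 3 * y₁ + s * u ^ 2 * x₁ + t) := by
      rw [negY_vc R']
      intro h
      apply hy
      apply mul_left_cancel₀ (pow_ne_zero 3 h0)
      linear_combination h
    rw [slope_of_Y_ne rfl hy, slope_of_Y_ne rfl hy', negY_vc R']
    have hd : u ^ 3 * y₁ + s * u ^ 2 * x₁ + t -
        (u ^ 3 * W.toAffine.negY x₁ y₁ + s * u ^ 2 * x₁ + t) =
        u ^ 3 * (y₁ - W.toAffine.negY x₁ y₁) := by ring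
    have hd0 : y₁ - W.toAffine.negY x₁ y₁ ≠ 0 := sub_ne_zero.2 hy
    have hd3 : u ^ 3 * (y₁ - W.toAffine.negY x₁ y₁) ≠ 0 := mul_ne_zero (pow_ne_zero 3 h0) hd0
    have eX : 3 * (u ^ 2 * x₁ + r) ^ 2 + 2 * W'.a₂ * (u ^ 2 * x₁ + r) + W'.a₄ -
        W'.a₁ * (u ^ 3 * y₁ + s * u ^ 2 * x₁ + t) =
        u ^ 4 * (3 * x₁ ^ 2 + 2 * W.a₂ * x₁ + W.a₄ - W.a₁ * y₁) +
          s * u ^ 3 * (y₁ - W.toAffine.negY x₁ y₁) := by
      simp only [negY]
      linear_combination (-1 : L) * ((-(u ^ 3 * y₁) + s * u ^ 2 * x₁) * h1 +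
        (2 * u ^ 2 * x₁) * h2 + s * h3 + h4)
    rw [hd, eX, div_eq_iff hd3]
    field_simp
  · have hx' : u ^ 2 * x₁ + r ≠ u ^ 2 * x₂ + r := fun h =>
      hx (mul_left_cancel₀ (pow_ne_zero 2 h0) (add_right_cancel h))
    rw [slope_of_X_ne hx, slope_of_X_ne hx']
    have e1 : x₁ - x₂ ≠ 0 := sub_ne_zero.2 hx
    have e2 : u ^ 2 * x₁ + r - (u ^ 2 * x₂ + r) = u ^ 2 * (x₁ - x₂) := by ring
    rw [e2]
    field_simp
    ring

/-- the homomorphism of groups of points given by a change of coordinates -/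
noncomputable def vc (R : Rel W W' u r s t) : W.toAffine.Point →+ W'.toAffine.Point where
  toFun P := match P with
    | 0 => 0
    | Point.some x y h => Point.some _ _ ((nons_iff R x y).2 h)
  map_zero' := rfl
  map_add' := by
    rintro (_ | ⟨x₁, y₁, n₁⟩) (_ | ⟨x₂, y₂, n₂⟩)
    any_goals rfl
    by_cases hxy : x₁ = x₂ ∧ y₁ = W.toAffine.negY x₂ y₂
    · rw [Point.add_of_Y_eq hxy.left hxy.right, Point.add_of_Y_eq (by rw [hxy.left]) (by
        rw [negY_vc R, hxy.left, hxy.right])]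
    · rw [Point.add_some hxy]
      have hxy' : ¬(u ^ 2 * x₁ + r = u ^ 2 * x₂ + r ∧
          u ^ 3 * y₁ + s * u ^ 2 * x₁ + t =
            W'.toAffine.negY (u ^ 2 * x₂ + r) (u ^ 3 * y₂ + s * u ^ 2 * x₂ + t)) := by
        rintro ⟨e1, e2⟩
        apply hxy
        have e3 : x₁ = x₂ := mul_left_cancel₀ (pow_ne_zero 2 R.h0) (add_right_cancel e1)
        refine ⟨e3, ?_⟩
        rw [negY_vc R] at e2
        subst e3
        apply mul_left_cancel₀ (pow_ne_zero 3 R.h0)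
        linear_combination e2
      rw [Point.add_some hxy']
      have hs := slope_vc R n₁.1 n₂.1 hxy
      have e1 : u ^ 2 * W.toAffine.addX x₁ x₂ (W.toAffine.slope x₁ x₂ y₁ y₂) + r =
          W'.toAffine.addX (u ^ 2 * x₁ + r) (u ^ 2 * x₂ + r)
            (W'.toAffine.slope (u ^ 2 * x₁ + r) (u ^ 2 * x₂ + r) (u ^ 3 * y₁ + s * u ^ 2 * x₁ + t)
              (u ^ 3 * y₂ + s * u ^ 2 * x₂ + t)) := by
        rw [hs]
        simp only [addX]
        linear_combination (u * W.toAffine.slope x₁ x₂ y₁ y₂) * R.h1 - R.h2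
      have e2 : u ^ 3 * W.toAffine.addY x₁ x₂ y₁ (W.toAffine.slope x₁ x₂ y₁ y₂) +
          s * u ^ 2 * W.toAffine.addX x₁ x₂ (W.toAffine.slope x₁ x₂ y₁ y₂) + t =
          W'.toAffine.addY (u ^ 2 * x₁ + r) (u ^ 2 * x₂ + r) (u ^ 3 * y₁ + s * u ^ 2 * x₁ + t)
            (W'.toAffine.slope (u ^ 2 * x₁ + r) (u ^ 2 * x₂ + r) (u ^ 3 * y₁ + s * u ^ 2 * x₁ + t)
              (u ^ 3 * y₂ + s * u ^ 2 * x₂ + t)) := by
        have e3 : W'.toAffine.negAddY (u ^ 2 * x₁ + r) (u ^ 2 * x₂ + r)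
            (u ^ 3 * y₁ + s * u ^ 2 * x₁ + t)
            (W'.toAffine.slope (u ^ 2 * x₁ + r) (u ^ 2 * x₂ + r) (u ^ 3 * y₁ + s * u ^ 2 * x₁ + t)
              (u ^ 3 * y₂ + s * u ^ 2 * x₂ + t)) =
            u ^ 3 * W.toAffine.negAddY x₁ x₂ y₁ (W.toAffine.slope x₁ x₂ y₁ y₂) +
              s * u ^ 2 * W.toAffine.addX x₁ x₂ (W.toAffine.slope x₁ x₂ y₁ y₂) + t := by
          unfold negAddY
          rw [← e1, hs]
          ring
        unfold addY
        rw [← e1, e3, negY_vc R]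
      simp only [Point.some.injEq]
      exact ⟨e1, e2⟩

theorem vc_some (R : Rel W W' u r s t) {x y : L} (h : W.toAffine.Nonsingular x y) :
    vc R (Point.some x y h) = Point.some _ _ ((nons_iff R x y).2 h) := rfl

theorem vc_zero (R : Rel W W' u r s t) : vc R 0 = 0 := rfl

theorem vc_bijective (R : Rel W W' u r s t) : Function.Bijective (vc R) := by
  have h0 := R.h0
  constructor
  · rintro (_ | ⟨x₁, y₁, n₁⟩) (_ | ⟨x₂, y₂, n₂⟩) h
    · rfl
    · exact absurd h (by rw [vc_some]; exact Point.some_ne_zero _ |>.symm)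
    · exact absurd h (by rw [vc_some]; exact Point.some_ne_zero _)
    · rw [vc_some, vc_some, Point.some.injEq] at h
      obtain ⟨e1, e2⟩ := h
      have e3 : x₁ = x₂ := mul_left_cancel₀ (pow_ne_zero 2 R.h0) (add_right_cancel e1)
      subst e3
      have e4 : y₁ = y₂ := by
        apply mul_left_cancel₀ (pow_ne_zero 3 R.h0)
        linear_combination e2
      subst e4
      rfl
  · rintro (_ | ⟨X, Y, n⟩)
    · exact ⟨0, rfl⟩
    · have eX : u ^ 2 * ((X - r) / u ^ 2) + r = X := by field_simp; ring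
      have eY : u ^ 3 * ((Y - s * (X - r) - t) / u ^ 3) + s * u ^ 2 * ((X - r) / u ^ 2) + t =
          Y := by field_simp; ring
      have n' : W.toAffine.Nonsingular ((X - r) / u ^ 2) ((Y - s * (X - r) - t) / u ^ 3) := by
        rw [← nons_iff R, eX, eY]; exact n
      refine ⟨Point.some _ _ n', ?_⟩
      rw [vc_some, Point.some.injEq]
      exact ⟨eX, eY⟩

/-- base change of the relations -/
theorem Rel.map {K : Type} [Field K] [Algebra L K] (R : Rel W W' u r s t) :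
    Rel (W⁄K) (W'⁄K) (algebraMap L K u) (algebraMap L K r) (algebraMap L K s)
      (algebraMap L K t) := by
  obtain ⟨h0, h1, h2, h3, h4, h6⟩ := R
  have inj := (algebraMap L K).injective
  refine ⟨fun h => h0 (inj (by rw [h, map_zero])), ?_, ?_, ?_, ?_, ?_⟩
  · have := congrArg (algebraMap L K) h1
    simpa [map_ofNat] using this
  · have := congrArg (algebraMap L K) h2
    simpa [map_ofNat] using this
  · have := congrArg (algebraMap L K) h3
    simpa [map_ofNat] using this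
  · have := congrArg (algebraMap L K) h4
    simpa [map_ofNat] using this
  · have := congrArg (algebraMap L K) h6
    simpa [map_ofNat] using this

/-- a change of coordinates is an algebraic map -/
theorem vc_algMap (R : Rel W W' u r s t) : AlgMap W W' (vc R) := by
  refine ⟨rfl, ?_⟩
  intro K _ _ T
  refine ⟨vc R.map T, ?_⟩
  intro v p hp
  rcases T with _ | ⟨x, y, n⟩
  · have hp0 : p = 0 := hp
    subst hp0
    exact rfl
  · rcases p with _ | ⟨x₀, y₀, n₀⟩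
    · have hx : v.ord x < 0 := hp
      show v.ord (algebraMap L K u ^ 2 * x + algebraMap L K r) < 0
      have hu : algebraMap L K u ≠ 0 := R.map.h0
      have hx0 : x ≠ 0 := by
        rintro rfl
        rw [v.ord_zero] at hx
        exact lt_irrefl _ hx
      have h1 : v.ord (algebraMap L K u ^ 2 * x) = v.ord x := by
        rw [v.ord_mul _ _ (pow_ne_zero 2 hu) hx0, v.ord_pow, v.ord_const u R.h0]
        simp
      by_cases hr : r = 0
      · rw [hr, map_zero, add_zero, h1]; exact hx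
      · have h2 := v.ord_add_of_lt (f := algebraMap L K u ^ 2 * x) (g := algebraMap L K r)
          (mul_ne_zero (pow_ne_zero 2 hu) hx0)
          (fun h => hr ((algebraMap L K).injective (by rw [h, map_zero])))
          (by rw [h1, v.ord_const r hr]; exact hx)
        rw [h2.2, h1]; exact hx
    · obtain ⟨hx, hy⟩ : v.Zer (x - algebraMap L K x₀) ∧ v.Zer (y - algebraMap L K y₀) := hp
      show v.Zer (algebraMap L K u ^ 2 * x + algebraMap L K r -
          algebraMap L K (u ^ 2 * x₀ + r)) ∧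
        v.Zer (algebraMap L K u ^ 3 * y + algebraMap L K s * algebraMap L K u ^ 2 * x +
          algebraMap L K t - algebraMap L K (u ^ 3 * y₀ + s * u ^ 2 * x₀ + t))
      constructor
      · have h1 := Place.val_add (Place.val_mul (v.val_const (u ^ 2)) hx) (v.val_const r)
        rw [map_pow] at h1
        exact h1
      · have h1 := Place.val_add (Place.val_add (Place.val_mul (v.val_const (u ^ 3)) hy)
          (Place.val_mul (v.val_const (s * u ^ 2)) hx)) (v.val_const t)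
        rw [map_pow, map_mul (algebraMap L K) s, map_pow] at h1
        exact h1

end TD1

open TD1 in
/-- affine change of coordinates: if `4 x³ + b₂ x² + 2 b₄ x + b₆ = 4 (x - e₁) (x - e₂) (x - e₃)` and
`δ² = e₂ - e₁`, then `x ↦ e₁ + δ² x`, `2 y + a₁ x + a₃ = 2 δ³ y` is an isomorphism from the Legendre
curve with parameter `(e₃ - e₁) / (e₂ - e₁)`. -/
theorem leg_iso {k : Type} [Field k] [CharZero k] (W : WeierstrassCurve k) (e₁ e₂ e₃ δ : k)
    (hW : ∀ x : k, 4 * x ^ 3 + W.b₂ * x ^ 2 + 2 * W.b₄ * x + W.b₆ =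
      4 * ((x - e₁) * (x - e₂) * (x - e₃))) (hδ : δ ^ 2 = e₂ - e₁) (hδ0 : δ ≠ 0)
    (lam : k) (hlam : lam = (e₃ - e₁) / (e₂ - e₁)) :
    ∃ g : (lg lam).toAffine.Point ≃+ W.toAffine.Point, AlgMap (lg lam) W g := by
  -- coefficients of the cubic
  have c0 : W.b₆ = -4 * (e₁ * e₂ * e₃) := by
    have := hW 0
    linear_combination this
  have c1 := hW 1
  have cm1 := hW (-1)
  have c2 := hW 2
  have hb2 : W.b₂ = -4 * (e₁ + e₂ + e₃) := by
    have h2 : (2 : k) ≠ 0 := two_ne_zero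
    apply mul_left_cancel₀ h2
    linear_combination c1 + cm1 - 2 * c0
  have hb4 : W.b₄ = 2 * (e₁ * e₂ + e₁ * e₃ + e₂ * e₃) := by
    have h2 : (4 : k) ≠ 0 := by norm_num
    apply mul_left_cancel₀ h2
    linear_combination c1 - cm1
  have h21 : e₂ - e₁ ≠ 0 := by rw [← hδ]; exact pow_ne_zero 2 hδ0
  have hl : lam * δ ^ 2 = e₃ - e₁ := by
    rw [hlam, hδ]; field_simp
  have R : Rel (lg lam) W δ e₁ (-(W.a₁ / 2)) (-((W.a₁ * e₁ + W.a₃) / 2)) := by
    rw [WeierstrassCurve.b₂] at hb2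
    rw [WeierstrassCurve.b₄] at hb4
    rw [WeierstrassCurve.b₆] at c0
    refine ⟨hδ0, ?_, ?_, ?_, ?_, ?_⟩
    · show δ * 0 = _
      ring
    · show δ ^ 2 * (-(1 + lam)) = _
      linear_combination (-1 : k) * hδ - hl - (1 / 4 : k) * hb2
    · show δ ^ 3 * 0 = _
      ring
    · show δ ^ 4 * lam = _
      linear_combination δ ^ 2 * hl + (e₃ - e₁) * hδ - (1 / 2 : k) * hb4 - (e₁ / 2) * hb2
    · show δ ^ 6 * 0 = _
      have h := hW e₁
      rw [WeierstrassCurve.b₂, WeierstrassCurve.b₄, WeierstrassCurve.b₆] at h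
      linear_combination (-1 / 4 : k) * h
  exact ⟨AddEquiv.ofBijective (vc R) (vc_bijective R), vc_algMap R⟩

end Pool.Agent.LibIG50
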