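import Pool.Agent.LibIG50.TD1

/-!
Task D, second part: Legendre form over the algebraic numbers, 2-adically normalised.
-/

open scoped Classical
open WeierstrassCurve Pool.Agent.LibBH2 Polynomial

namespace Pool.Agent.LibIG50

namespace TD2

theorem exists_roots (W : WeierstrassCurve Qb) [W.IsElliptic] :
    ∃ e₁ e₂ e₃ : Qb, e₁ ≠ e₂ ∧ e₁ ≠ e₃ ∧ e₂ ≠ e₃ ∧
      ∀ x : Qb, 4 * x ^ 3 + W.b₂ * x ^ 2 + 2 * W.b₄ * x + W.b₆ =
        4 * ((x - e₁) * (x - e₂) * (x - e₃)) := by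
  have ha : W.twoTorsionPolynomial.a ≠ 0 := by
    change (4 : Qb) ≠ 0
    norm_num
  have hs : (W.twoTorsionPolynomial.toPoly.map (RingHom.id Qb)).Splits :=
    IsAlgClosed.splits _
  obtain ⟨x, y, z, h3⟩ := (Cubic.splits_iff_roots_eq_three ha).1 hs
  have hd : W.twoTorsionPolynomial.discr ≠ 0 := by
    apply W.twoTorsionPolynomial_discr_ne_zero
    · exact (isUnit_iff_ne_zero).2 (by norm_num)
    · exact W.isUnit_Δ
  obtain ⟨h1, h2, h4⟩ := (Cubic.discr_ne_zero_iff_roots_ne ha h3).1 hd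
  refine ⟨x, y, z, h1, h2, h4, fun t => ?_⟩
  have hb := Cubic.b_eq_three_roots ha h3
  have hc := Cubic.c_eq_three_roots ha h3
  have hd' := Cubic.d_eq_three_roots ha h3
  simp only [RingHom.id_apply, twoTorsionPolynomial] at hb hc hd'
  rw [hb, hc, hd']
  ring

/-- the ordering of the roots: the first and the third are the closest pair -/
theorem order_roots (e₁ e₂ e₃ : Qb) (h12 : e₁ ≠ e₂) (h13 : e₁ ≠ e₃) (h23 : e₂ ≠ e₃) :
    ∃ f₁ f₂ f₃ : Qb, f₁ ≠ f₂ ∧ f₁ ≠ f₃ ∧ f₂ ≠ f₃ ∧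
      ‖jj (f₃ - f₁)‖ ≤ ‖jj (f₂ - f₁)‖ ∧ ‖jj (f₃ - f₁)‖ ≤ ‖jj (f₃ - f₂)‖ ∧
      ∀ x : Qb, (x - e₁) * (x - e₂) * (x - e₃) = (x - f₁) * (x - f₂) * (x - f₃) := by
  have hs : ∀ a b : Qb, ‖jj (a - b)‖ = ‖jj (b - a)‖ := fun a b => by
    rw [← neg_sub b a, map_neg, norm_neg]
  rcases le_total ‖jj (e₃ - e₁)‖ ‖jj (e₂ - e₁)‖ with h | h
  · rcases le_total ‖jj (e₃ - e₁)‖ ‖jj (e₃ - e₂)‖ with h' | h'
    · exact ⟨e₁, e₂, e₃, h12, h13, h23, h, h', fun x => rfl⟩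
    · -- closest pair is e₂, e₃
      refine ⟨e₂, e₁, e₃, h12.symm, h23, h13, ?_, ?_, fun x => by ring⟩
      · rw [hs e₁ e₂]; exact h'.trans h
      · exact h'
  · rcases le_total ‖jj (e₂ - e₁)‖ ‖jj (e₃ - e₂)‖ with h' | h'
    · -- closest pair is e₁, e₂
      refine ⟨e₁, e₃, e₂, h13, h12, h23.symm, h, ?_, fun x => by ring⟩
      rw [hs e₂ e₃]; exact h'
    · refine ⟨e₂, e₁, e₃, h12.symm, h23, h13, ?_, ?_, fun x => by ring⟩
      · rw [hs e₁ e₂]; exact h'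
      · exact h'.trans h

theorem norm_add_le_max' (a b : L2) : ‖a + b‖ ≤ max ‖a‖ ‖b‖ :=
  IsUltrametricDist.norm_add_le_max a b

end TD2

open TD2 in
/-- Legendre form with `2`-adic normalisation of the parameter `κ ^ 2` -/
theorem exists_leg (W : WeierstrassCurve Qb) [W.IsElliptic] :
    ∃ κ : Qb, κ ≠ 0 ∧ κ ≠ 1 ∧ κ ≠ -1 ∧ ‖jj κ‖ ≤ 1 ∧ ‖jj (1 + κ)‖ = 1 ∧
      ∃ g : (lg (κ ^ 2)).toAffine.Point ≃+ W.toAffine.Point, AlgMap (lg (κ ^ 2)) W g := by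
  obtain ⟨e₁, e₂, e₃, h12, h13, h23, hW⟩ := exists_roots W
  obtain ⟨f₁, f₂, f₃, g12, g13, g23, hn1, hn2, hf⟩ := order_roots e₁ e₂ e₃ h12 h13 h23
  have g21 : f₂ - f₁ ≠ 0 := sub_ne_zero.2 g12.symm
  have g31 : f₃ - f₁ ≠ 0 := sub_ne_zero.2 g13.symm
  have g32 : f₃ - f₂ ≠ 0 := sub_ne_zero.2 g23.symm
  obtain ⟨δ, hδ⟩ := IsAlgClosed.exists_pow_nat_eq (f₂ - f₁) (n := 2) (by norm_num)
  obtain ⟨κ, hκ⟩ := IsAlgClosed.exists_pow_nat_eq ((f₃ - f₁) / (f₂ - f₁)) (n := 2) (by norm_num)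
  have hδ0 : δ ≠ 0 := by
    rintro rfl
    apply g21
    rw [← hδ]; ring
  have hpos : 0 < ‖jj (f₂ - f₁)‖ := norm_pos_iff.2 ((map_ne_zero jj).2 g21)
  have hle : ‖jj κ‖ ≤ 1 := by
    have h1 : ‖jj κ‖ ^ 2 ≤ 1 := by
      rw [← norm_pow, ← map_pow, hκ, map_div₀, norm_div]
      exact (div_le_one hpos).2 hn1
    exact (pow_le_one_iff_of_nonneg (norm_nonneg _) (by norm_num)).1 h1
  -- the two longer sides are equal
  have heq : ‖jj (f₂ - f₁)‖ ≤ ‖jj (f₃ - f₂)‖ := by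
    have h1 : ‖jj (f₂ - f₁)‖ ≤ max ‖jj (f₃ - f₁)‖ ‖jj (f₂ - f₃)‖ := by
      have : jj (f₂ - f₁) = jj (f₃ - f₁) + jj (f₂ - f₃) := by
        rw [← map_add]; congr 1; ring
      rw [this]
      exact norm_add_le_max' _ _
    have h2 : ‖jj (f₂ - f₃)‖ = ‖jj (f₃ - f₂)‖ := by
      rw [← neg_sub f₃ f₂, map_neg, norm_neg]
    rw [h2] at h1
    exact h1.trans (max_le hn2 le_rfl)
  have hk1 : ‖jj (1 + κ)‖ ≤ 1 := by
    rw [map_add, map_one]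
    refine (norm_add_le_max' _ _).trans (max_le ?_ hle)
    rw [norm_one]
  have hk2 : ‖jj (κ - 1)‖ ≤ 1 := by
    rw [map_sub, map_one, sub_eq_add_neg]
    refine (norm_add_le_max' _ _).trans (max_le hle ?_)
    rw [norm_neg, norm_one]
  have hprod : 1 ≤ ‖jj (1 + κ)‖ * ‖jj (κ - 1)‖ := by
    have h1 : (1 + κ) * (κ - 1) = (f₃ - f₂) / (f₂ - f₁) := by
      have : (1 + κ) * (κ - 1) = κ ^ 2 - 1 := by ring
      rw [this, hκ]
      field_simp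
      ring
    rw [← norm_mul, ← map_mul, h1, map_div₀, norm_div]
    exact (one_le_div hpos).2 heq
  have hk3 : ‖jj (1 + κ)‖ = 1 := by
    apply le_antisymm hk1
    calc 1 ≤ ‖jj (1 + κ)‖ * ‖jj (κ - 1)‖ := hprod
      _ ≤ ‖jj (1 + κ)‖ * 1 := mul_le_mul_of_nonneg_left hk2 (norm_nonneg _)
      _ = ‖jj (1 + κ)‖ := mul_one _
  refine ⟨κ, ?_, ?_, ?_, hle, hk3, ?_⟩
  · rintro rfl
    rw [zero_pow (by norm_num)] at hκ
    exact (div_ne_zero g31 g21) hκ.symm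
  · rintro rfl
    simp only [sub_self, map_zero, norm_zero, mul_zero] at hprod
    exact absurd hprod (by norm_num)
  · rintro rfl
    simp only [add_neg_cancel, map_zero, norm_zero, zero_mul] at hprod
    exact absurd hprod (by norm_num)
  · exact leg_iso W f₁ f₂ f₃ δ (fun x => by rw [hW x, hf x]) hδ hδ0 (κ ^ 2) hκ

end Pool.Agent.LibIG50
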