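import Pool.Agent.LibIG50.TA
import Pool.Agent.LibIG50.TC

/-!
Task E: deep maps.
-/

open scoped Classical
open WeierstrassCurve Pool.Agent.LibBH2

namespace Pool.Agent.LibIG50

theorem norm_two : ‖jj 2‖ = 1 / 2 := by
  have h1 : jj 2 = ((2 : ℚ_[2]) : L2) := by
    rw [map_ofNat]
    exact (map_ofNat (algebraMap ℚ_[2] L2) 2).symm
  rw [h1, PadicAlgCl.norm_extends]
  have h2 := Padic.norm_p (p := 2)
  rw [Nat.cast_ofNat] at h2
  rw [h2]
  norm_num

theorem IsDeep.id' (lam : Qb) : IsDeep lam lam 1 id where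
  alg := AlgMap.id' _
  one_le := by rw [map_one, norm_one]
  asym := fun x y h hx => by
    refine ⟨x, y, h, rfl, ?_⟩
    have hx0 : x ≠ 0 := by
      rintro rfl
      rw [map_zero, norm_zero] at hx
      linarith
    rw [one_mul, div_self hx0, sub_self, map_zero, norm_zero]
    positivity

theorem IsDeep.comp {l₁ l₂ l₃ C D : Qb} {f : (lg l₁).toAffine.Point → (lg l₂).toAffine.Point}
    {g : (lg l₂).toAffine.Point → (lg l₃).toAffine.Point} (hg : IsDeep l₂ l₃ D g)
    (hf : IsDeep l₁ l₂ C f) : IsDeep l₁ l₃ (D * C) (g ∘ f) where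
  alg := hg.alg.comp hf.alg
  one_le := by
    rw [map_mul, norm_mul]
    exact one_le_mul_of_one_le_of_one_le hg.one_le hf.one_le
  asym := fun x y h hx => by
    have hx0 : x ≠ 0 := by
      rintro rfl
      rw [map_zero, norm_zero] at hx
      linarith
    have hC0 : C ≠ 0 := by
      rintro rfl
      have := hf.one_le
      rw [map_zero, norm_zero] at this
      linarith
    have hD0 : D ≠ 0 := by
      rintro rfl
      have := hg.one_le
      rw [map_zero, norm_zero] at this
      linarith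
    obtain ⟨X, Y, H, e1, e2⟩ := hf.asym x y h hx
    have hlt : 1 / ‖jj x‖ < 1 := by
      rw [div_lt_one (by linarith)]; exact hx
    set e := X / (C * x) - 1 with he
    have hXe : X = C * x * (1 + e) := by
      rw [he]; field_simp; ring
    have h1e : ‖jj (1 + e)‖ = 1 := by
      rw [map_add, map_one]
      have h1 : ‖(1 : L2)‖ ≠ ‖jj e‖ := by rw [norm_one]; linarith
      rw [IsUltrametricDist.norm_add_eq_max_of_norm_ne_norm h1, norm_one, max_eq_left (by linarith)]
    have h1e0 : 1 + e ≠ 0 := by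
      intro h0
      rw [h0, map_zero, norm_zero] at h1e
      exact zero_ne_one h1e
    have hXn : ‖jj x‖ ≤ ‖jj X‖ := by
      rw [hXe, map_mul, norm_mul, h1e, mul_one, map_mul, norm_mul]
      exact le_mul_of_one_le_left (norm_nonneg _) hf.one_le
    have hX1 : 1 < ‖jj X‖ := lt_of_lt_of_le hx hXn
    have hX0 : X ≠ 0 := by
      rintro rfl
      rw [map_zero, norm_zero] at hX1
      linarith
    obtain ⟨Z, U, H', e3, e4⟩ := hg.asym X Y H hX1
    refine ⟨Z, U, H', by rw [Function.comp_apply, e1, e3], ?_⟩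
    set g' := Z / (D * X) - 1 with hg'
    have hZg : Z = D * X * (1 + g') := by
      rw [hg']; field_simp; ring
    have hdec : Z / (D * C * x) - 1 = e + g' * (1 + e) := by
      rw [hZg, hXe]
      field_simp
      ring
    have hle : 1 / ‖jj X‖ ≤ 1 / ‖jj x‖ := one_div_le_one_div_of_le (by linarith) hXn
    rw [hdec, map_add]
    refine (IsUltrametricDist.norm_add_le_max _ _).trans (max_le e2 ?_)
    rw [map_mul, norm_mul, h1e, mul_one]
    exact e4.trans hle

/-- the Landen isogeny is deep -/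
theorem lan_deep (a b : Qb) (h0 : a ≠ 0) (h1 : a ≠ 1) (h2 : a ≠ -1) (ha : ‖jj a‖ ≤ 1)
    (ha1 : ‖jj (1 + a)‖ = 1) (h : b ^ 2 * (1 + a) ^ 2 = 4 * a) :
    ∃ f : (lg (b ^ 2)).toAffine.Point → (lg (a ^ 2)).toAffine.Point,
      IsDeep (b ^ 2) (a ^ 2) ((1 + a) ^ 2 / 4) f := by
  obtain ⟨f, hf, hform⟩ := exists_lan a b h0 h1 h2 h
  have h4 : ‖jj 4‖ = 1 / 4 := by
    have : (4 : Qb) = 2 * 2 := by norm_num
    rw [this, map_mul, norm_mul, norm_two]
    norm_num
  have ha0 : 1 + a ≠ 0 := by
    intro h0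
    rw [h0, map_zero, norm_zero] at ha1
    exact zero_ne_one ha1
  refine ⟨f, hf, ?_, ?_⟩
  · rw [map_div₀, norm_div, h4, map_pow, norm_pow, ha1]
    norm_num
  · intro x y hxy hx
    have hx0 : x ≠ 0 := by
      rintro rfl
      rw [map_zero, norm_zero] at hx
      linarith
    have hx1 : x ≠ 1 := by
      rintro rfl
      rw [map_one, norm_one] at hx
      linarith
    obtain ⟨H, e⟩ := hform x y hxy hx1
    refine ⟨_, _, H, e, ?_⟩
    have hb : ‖jj (b ^ 2)‖ ≤ 1 := by
      have h5 := congrArg (fun z => ‖jj z‖) h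
      simp only [map_mul, map_pow, norm_mul, norm_pow, h4, ha1] at h5
      rw [one_pow, mul_one] at h5
      rw [map_pow, norm_pow, h5]
      linarith
    have hx1' : x - 1 ≠ 0 := sub_ne_zero.2 hx1
    have hdec : (1 + a) ^ 2 / 4 * (x * (x - b ^ 2) / (x - 1)) / ((1 + a) ^ 2 / 4 * x) - 1 =
        (1 - b ^ 2) / (x - 1) := by
      field_simp
      ring
    rw [hdec, map_div₀, norm_div]
    have hn : ‖jj (x - 1)‖ = ‖jj x‖ := by
      rw [map_sub, map_one, sub_eq_add_neg]
      have h6 : ‖jj x‖ ≠ ‖(-1 : L2)‖ := by rw [norm_neg, norm_one]; linarith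
      rw [IsUltrametricDist.norm_add_eq_max_of_norm_ne_norm h6, norm_neg, norm_one,
        max_eq_left (by linarith)]
    have hn2 : ‖jj (1 - b ^ 2)‖ ≤ 1 := by
      rw [map_sub, map_one, sub_eq_add_neg]
      refine (IsUltrametricDist.norm_add_le_max _ _).trans (max_le (by rw [norm_one]) ?_)
      rw [norm_neg]; exact hb
    rw [hn]
    exact div_le_div_of_nonneg_right hn2 (norm_nonneg _)

end Pool.Agent.LibIG50
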