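import Mathlib

/-!
Task F: the two 2-adic towers.
-/

namespace Pool.Agent.LibIG50

namespace TF

variable {L : Type} [NormedField L] [IsUltrametricDist L]

omit [IsUltrametricDist L] in
theorem norm_four (h2 : ‖(2 : L)‖ = 1 / 2) : ‖(4 : L)‖ = 1 / 4 := by
  have : (4 : L) = 2 * 2 := by norm_num
  rw [this, norm_mul, h2]; norm_num

theorem norm_one_add {a : L} (ha : ‖a‖ < 1) : ‖1 + a‖ = 1 := by
  have h1 : ‖(1 : L)‖ ≠ ‖a‖ := by rw [norm_one]; exact ha.ne'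
  rw [IsUltrametricDist.norm_add_eq_max_of_norm_ne_norm h1, norm_one, max_eq_left ha.le]

theorem norm_one_sub {a : L} (ha : ‖a‖ < 1) : ‖1 - a‖ = 1 := by
  rw [sub_eq_add_neg]
  exact norm_one_add (by rwa [norm_neg])

theorem step_sq (h2 : ‖(2 : L)‖ = 1 / 2) {a a' : L} (ha : ‖a‖ < 1)
    (h : a' ^ 2 * (1 + a) ^ 2 = 4 * a) : ‖a'‖ ^ 2 = ‖a‖ / 4 := by
  have := congrArg norm h
  rw [norm_mul, norm_pow, norm_pow, norm_one_add ha, norm_mul, norm_four h2] at this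
  rw [one_pow, mul_one] at this
  rw [this]; ring

theorem step_lt (h2 : ‖(2 : L)‖ = 1 / 2) {a a' : L} (ha : ‖a‖ < 1 / 2)
    (h : a' ^ 2 * (1 + a) ^ 2 = 4 * a) : ‖a'‖ < 1 / 2 := by
  have := step_sq h2 (by linarith) h
  by_contra hcon
  push Not at hcon
  nlinarith [norm_nonneg a']

theorem norm_lt (h2 : ‖(2 : L)‖ = 1 / 2) (a : ℕ → L) (ha1 : ‖a 0‖ < 1 / 2)
    (ha : ∀ n, a (n + 1) ^ 2 * (1 + a n) ^ 2 = 4 * a n) (n : ℕ) : ‖a n‖ < 1 / 2 := by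
  induction n with
  | zero => exact ha1
  | succ n ih => exact step_lt h2 ih (ha n)

theorem norm_pos (h2 : ‖(2 : L)‖ = 1 / 2) (a : ℕ → L) (ha0 : 0 < ‖a 0‖) (ha1 : ‖a 0‖ < 1 / 2)
    (ha : ∀ n, a (n + 1) ^ 2 * (1 + a n) ^ 2 = 4 * a n) (n : ℕ) : 0 < ‖a n‖ := by
  induction n with
  | zero => exact ha0
  | succ n ih =>
    have h := step_sq h2 (by linarith [norm_lt h2 a ha1 ha n]) (ha n)
    rcases (norm_nonneg (a (n + 1))).lt_or_eq with h3 | h3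
    · exact h3
    · rw [← h3] at h
      nlinarith

/-- the main step: `d' ^ 2 = d / 4` -/
theorem diff_step (h2 : ‖(2 : L)‖ = 1 / 2) {a a' b b' : L} (ha : ‖a‖ < 1 / 2) (hb : ‖b‖ < 1 / 2)
    (hb0 : 0 < ‖b‖)
    (h : a' ^ 2 * (1 + a) ^ 2 = 4 * a) (h' : b' ^ 2 * (1 + b) ^ 2 = 4 * b)
    (hd : ‖b‖ / 2 ≤ ‖a - b‖) : ‖a' - b'‖ ^ 2 = ‖a - b‖ / 4 := by
  have h1a : ‖1 + a‖ = 1 := norm_one_add (by linarith)
  have h1b : ‖1 + b‖ = 1 := norm_one_add (by linarith)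
  have hane : (1 + a) ≠ 0 := by
    intro h0; rw [h0, norm_zero] at h1a; exact zero_ne_one h1a
  have hbne : (1 + b) ≠ 0 := by
    intro h0; rw [h0, norm_zero] at h1b; exact zero_ne_one h1b
  have hprod : ‖a' - b'‖ * ‖a' + b'‖ = ‖a - b‖ / 4 := by
    have e : (a' - b') * (a' + b') * ((1 + a) ^ 2 * (1 + b) ^ 2) = 4 * ((a - b) * (1 - a * b)) := by
      linear_combination (1 + b) ^ 2 * h - (1 + a) ^ 2 * h'
    have := congrArg norm e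
    rw [norm_mul, norm_mul, norm_mul, norm_pow, norm_pow, h1a, h1b, norm_mul, norm_mul,
      norm_four h2, norm_one_sub (a := a * b) (by
        rw [norm_mul]; nlinarith [norm_nonneg a, norm_nonneg b])] at this
    rw [one_pow, mul_one, mul_one, mul_one] at this
    rw [this]; ring
  have hbsq : ‖b'‖ ^ 2 = ‖b‖ / 4 := step_sq h2 (by linarith) h'
  have heq : ‖a' + b'‖ = ‖a' - b'‖ := by
    by_contra hne
    have hdiff : (2 * b') = (a' + b') + (-(a' - b')) := by ring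
    have h3 : ‖2 * b'‖ = max ‖a' + b'‖ ‖a' - b'‖ := by
      rw [hdiff, IsUltrametricDist.norm_add_eq_max_of_norm_ne_norm (by rwa [norm_neg]), norm_neg]
    have h4 : ‖a' - b'‖ * ‖a' + b'‖ ≤ ‖2 * b'‖ ^ 2 := by
      rw [h3, sq]
      exact mul_le_mul (le_max_right _ _) (le_max_left _ _) (norm_nonneg _)
        (le_trans (norm_nonneg _) (le_max_left _ _))
    rw [hprod, norm_mul, h2, mul_pow, hbsq] at h4
    linarith
  rw [heq] at hprod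
  rw [sq, hprod]

theorem diff_lb (h2 : ‖(2 : L)‖ = 1 / 2)
    (a b : ℕ → L) (h0 : b 0 = - a 0) (ha0 : 0 < ‖a 0‖) (ha1 : ‖a 0‖ < 1 / 2)
    (ha : ∀ n, a (n + 1) ^ 2 * (1 + a n) ^ 2 = 4 * a n)
    (hb : ∀ n, b (n + 1) ^ 2 * (1 + b n) ^ 2 = 4 * b n) (n : ℕ) :
    ‖b n‖ / 2 ≤ ‖a n - b n‖ := by
  have hb0 : 0 < ‖b 0‖ := by rwa [h0, norm_neg]
  have hb1 : ‖b 0‖ < 1 / 2 := by rwa [h0, norm_neg]
  induction n with
  | zero =>
    have : a 0 - b 0 = 2 * a 0 := by rw [h0]; ring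
    rw [this, norm_mul, h2, h0, norm_neg]
    linarith
  | succ n ih =>
    have h3 := diff_step h2 (norm_lt h2 a ha1 ha n) (norm_lt h2 b hb1 hb n)
      (norm_pos h2 b hb0 hb1 hb n) (ha n) (hb n) ih
    have h4 := step_sq h2 (by linarith [norm_lt h2 b hb1 hb n]) (hb n)
    have h5 : (‖b (n + 1)‖ / 2) ^ 2 ≤ ‖a (n + 1) - b (n + 1)‖ ^ 2 := by
      rw [h3, div_pow, h4]
      have := norm_nonneg (b n)
      linarith
    exact (abs_le_of_sq_le_sq' h5 (norm_nonneg _)).2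

theorem diff_rec (h2 : ‖(2 : L)‖ = 1 / 2)
    (a b : ℕ → L) (h0 : b 0 = - a 0) (ha0 : 0 < ‖a 0‖) (ha1 : ‖a 0‖ < 1 / 2)
    (ha : ∀ n, a (n + 1) ^ 2 * (1 + a n) ^ 2 = 4 * a n)
    (hb : ∀ n, b (n + 1) ^ 2 * (1 + b n) ^ 2 = 4 * b n) (n : ℕ) :
    ‖a (n + 1) - b (n + 1)‖ ^ 2 = ‖a n - b n‖ / 4 := by
  have hb0 : 0 < ‖b 0‖ := by rwa [h0, norm_neg]
  have hb1 : ‖b 0‖ < 1 / 2 := by rwa [h0, norm_neg]
  exact diff_step h2 (norm_lt h2 a ha1 ha n) (norm_lt h2 b hb1 hb n)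
      (norm_pos h2 b hb0 hb1 hb n) (ha n) (hb n) (diff_lb h2 a b h0 ha0 ha1 ha hb n)

theorem diff_pow (h2 : ‖(2 : L)‖ = 1 / 2)
    (a b : ℕ → L) (h0 : b 0 = - a 0) (ha0 : 0 < ‖a 0‖) (ha1 : ‖a 0‖ < 1 / 2)
    (ha : ∀ n, a (n + 1) ^ 2 * (1 + a n) ^ 2 = 4 * a n)
    (hb : ∀ n, b (n + 1) ^ 2 * (1 + b n) ^ 2 = 4 * b n) (n : ℕ) :
    (4 * ‖a n - b n‖) ^ (2 ^ n) = 2 * ‖a 0‖ := by
  induction n with
  | zero =>
    have : a 0 - b 0 = 2 * a 0 := by rw [h0]; ring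
    rw [this, norm_mul, h2]; ring
  | succ n ih =>
    have h3 := diff_rec h2 a b h0 ha0 ha1 ha hb n
    rw [pow_succ' 2 n, pow_mul, mul_pow, h3, ← ih]
    congr 1
    ring

theorem diff_lt (h2 : ‖(2 : L)‖ = 1 / 2)
    (a b : ℕ → L) (h0 : b 0 = - a 0) (ha0 : 0 < ‖a 0‖) (ha1 : ‖a 0‖ < 1 / 2)
    (ha : ∀ n, a (n + 1) ^ 2 * (1 + a n) ^ 2 = 4 * a n)
    (hb : ∀ n, b (n + 1) ^ 2 * (1 + b n) ^ 2 = 4 * b n) (n : ℕ) :
    0 < ‖a n - b n‖ ∧ ‖a n - b n‖ < 1 / 4 := by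
  have hb0 : 0 < ‖b 0‖ := by rwa [h0, norm_neg]
  have hb1 : ‖b 0‖ < 1 / 2 := by rwa [h0, norm_neg]
  refine ⟨?_, ?_⟩
  · have := diff_lb h2 a b h0 ha0 ha1 ha hb n
    have := norm_pos h2 b hb0 hb1 hb n
    linarith
  · by_contra hcon
    push Not at hcon
    have h3 := diff_pow h2 a b h0 ha0 ha1 ha hb n
    have h4 : (1 : ℝ) ≤ (4 * ‖a n - b n‖) ^ (2 ^ n) := one_le_pow₀ (by linarith)
    linarith

theorem diff_mono (h2 : ‖(2 : L)‖ = 1 / 2)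
    (a b : ℕ → L) (h0 : b 0 = - a 0) (ha0 : 0 < ‖a 0‖) (ha1 : ‖a 0‖ < 1 / 2)
    (ha : ∀ n, a (n + 1) ^ 2 * (1 + a n) ^ 2 = 4 * a n)
    (hb : ∀ n, b (n + 1) ^ 2 * (1 + b n) ^ 2 = 4 * b n) (n : ℕ) :
    ‖a n - b n‖ < ‖a (n + 1) - b (n + 1)‖ := by
  have h3 := diff_rec h2 a b h0 ha0 ha1 ha hb n
  obtain ⟨h4, h5⟩ := diff_lt h2 a b h0 ha0 ha1 ha hb n
  by_contra hcon
  push Not at hcon
  nlinarith [norm_nonneg (a (n + 1) - b (n + 1))]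

theorem quot_sub {a b : L} (hb : ‖b‖ < 1 / 2) :
    ‖(1 + a) / (1 + b) - 1‖ = ‖a - b‖ := by
  have h1b : ‖1 + b‖ = 1 := norm_one_add (by linarith)
  have hbne : (1 + b) ≠ 0 := by
    intro h0; rw [h0, norm_zero] at h1b; exact zero_ne_one h1b
  have : (1 + a) / (1 + b) - 1 = (a - b) / (1 + b) := by
    field_simp
    ring
  rw [this, norm_div, h1b, div_one]

theorem prod_norm (h2 : ‖(2 : L)‖ = 1 / 2)
    (a b : ℕ → L) (h0 : b 0 = - a 0) (ha0 : 0 < ‖a 0‖) (ha1 : ‖a 0‖ < 1 / 2)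
    (ha : ∀ n, a (n + 1) ^ 2 * (1 + a n) ^ 2 = 4 * a n)
    (hb : ∀ n, b (n + 1) ^ 2 * (1 + b n) ^ 2 = 4 * b n) (n : ℕ) :
    ‖∏ i ∈ Finset.range (n + 1), ((1 + a i) / (1 + b i)) - 1‖ = ‖a n - b n‖ := by
  have hb0 : 0 < ‖b 0‖ := by rwa [h0, norm_neg]
  have hb1 : ‖b 0‖ < 1 / 2 := by rwa [h0, norm_neg]
  induction n with
  | zero =>
    rw [zero_add, Finset.prod_range_one]
    exact quot_sub hb1
  | succ n ih =>
    rw [Finset.prod_range_succ]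
    set P := ∏ i ∈ Finset.range (n + 1), ((1 + a i) / (1 + b i)) with hP
    set q := (1 + a (n + 1)) / (1 + b (n + 1)) with hq
    have hq1 : ‖q - 1‖ = ‖a (n + 1) - b (n + 1)‖ := quot_sub (norm_lt h2 b hb1 hb _)
    have hqn : ‖q‖ = 1 := by
      rw [hq, norm_div, norm_one_add (by linarith [norm_lt h2 a ha1 ha (n + 1)]),
        norm_one_add (by linarith [norm_lt h2 b hb1 hb (n + 1)]), div_one]
    have e : P * q - 1 = (P - 1) * q + (q - 1) := by ring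
    have h5 : ‖(P - 1) * q‖ = ‖a n - b n‖ := by rw [norm_mul, hqn, mul_one, ih]
    have h6 := diff_mono h2 a b h0 ha0 ha1 ha hb n
    rw [e, IsUltrametricDist.norm_add_eq_max_of_norm_ne_norm (by rw [h5, hq1]; exact h6.ne), h5,
      hq1, max_eq_right h6.le]

end TF

/-- Two towers `a`, `b` over the same parameter, `b 0 = - a 0`. -/
theorem tower_norm {L : Type} [NormedField L] [IsUltrametricDist L] (h2 : ‖(2 : L)‖ = 1 / 2)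
    (a b : ℕ → L) (h0 : b 0 = - a 0) (ha0 : 0 < ‖a 0‖) (ha1 : ‖a 0‖ < 1 / 2)
    (ha : ∀ n, a (n + 1) ^ 2 * (1 + a n) ^ 2 = 4 * a n)
    (hb : ∀ n, b (n + 1) ^ 2 * (1 + b n) ^ 2 = 4 * b n) (n : ℕ) :
    (8 * ‖∏ i ∈ Finset.range (n + 1), ((1 + a i) / (1 + b i)) ^ 2 - 1‖) ^ (2 ^ n) = 2 * ‖a 0‖ := by
  rw [Finset.prod_pow]
  have h3 := TF.prod_norm h2 a b h0 ha0 ha1 ha hb n
  set P := ∏ i ∈ Finset.range (n + 1), ((1 + a i) / (1 + b i)) with hP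
  obtain ⟨h4, h5⟩ := TF.diff_lt h2 a b h0 ha0 ha1 ha hb n
  have e : P ^ 2 - 1 = (P - 1) * ((P - 1) + 2) := by ring
  have h6 : ‖(P - 1) + 2‖ = 1 / 2 := by
    rw [IsUltrametricDist.norm_add_eq_max_of_norm_ne_norm (by
      rw [h3, h2]; intro h7; rw [h7] at h5; norm_num at h5), h3, h2]
    exact max_eq_right (by linarith)
  rw [e, norm_mul, h6, h3, ← TF.diff_pow h2 a b h0 ha0 ha1 ha hb n]
  congr 1
  ring

end Pool.Agent.LibIG50
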