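import Pool.Agent.LibIG50.Base
import Pool.Agent.LibBH2.AddSub

/-!
Task G: the 2-adic points with large abscissa form a torsion-free group.
-/

open scoped Classical
open WeierstrassCurve Pool.Agent.LibBH2

namespace Pool.Agent.LibIG50

/-- `P` is zero or has an abscissa of norm `> 1` -/
def Dp {W : WeierstrassCurve L2} (P : W.toAffine.Point) : Prop :=
  P = 0 ∨ ∃ (x y : L2) (h : W.toAffine.Nonsingular x y), P = Affine.Point.some x y h ∧ 1 < ‖x‖

namespace TG

theorem norm_two' : ‖(2 : L2)‖ = 1 / 2 := by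
  have h := PadicAlgCl.norm_extends 2 (2 : ℚ_[2])
  have h2 : ‖(2 : ℚ_[2])‖ = 1 / 2 := by
    have := Padic.norm_p (p := 2)
    simpa using this
  rw [h2] at h
  rw [← h]
  rfl

theorem norm_four' : ‖(4 : L2)‖ = 1 / 4 := by
  have : (4 : L2) = 2 * 2 := by norm_num
  rw [this, norm_mul, norm_two']
  norm_num

theorem nadd (a b : L2) : ‖a + b‖ ≤ max ‖a‖ ‖b‖ := IsUltrametricDist.norm_add_le_max a b

theorem nsub (a b : L2) : ‖a - b‖ ≤ max ‖a‖ ‖b‖ := by
  rw [sub_eq_add_neg]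
  refine (nadd _ _).trans ?_
  rw [norm_neg]

theorem nadd_eq {a b : L2} (h : ‖b‖ < ‖a‖) : ‖a + b‖ = ‖a‖ := by
  apply le_antisymm
  · exact (nadd a b).trans (max_le le_rfl h.le)
  · have h1 : ‖a‖ ≤ max ‖a + b‖ ‖b‖ := by
      have := nsub (a + b) b
      rwa [add_sub_cancel_right] at this
    rcases le_max_iff.1 h1 with h2 | h2
    · exact h2
    · exact absurd h2 (not_le.2 h)

theorem nsub_eq {a b : L2} (h : ‖b‖ < ‖a‖) : ‖a - b‖ = ‖a‖ := by
  rw [sub_eq_add_neg]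
  exact nadd_eq (by rwa [norm_neg])

/-- doubling -/
theorem double (W : WeierstrassCurve L2) (h1 : W.a₁ = 0) (h3 : W.a₃ = 0) (h6 : W.a₆ = 0)
    (h2 : ‖W.a₂‖ ≤ 1) (h4 : ‖W.a₄‖ ≤ 1) (x y : L2) (h : W.toAffine.Nonsingular x y)
    (hx : 1 < ‖x‖) :
    ∃ (X Y : L2) (H : W.toAffine.Nonsingular X Y),
      (Affine.Point.some x y h + Affine.Point.some x y h : W.toAffine.Point) =
        Affine.Point.some X Y H ∧ ‖X‖ = 4 * ‖x‖ := by
  have e := (W.toAffine.equation_iff x y).1 h.1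
  rw [h1, h3, h6] at e
  have hx0 : 0 < ‖x‖ := lt_trans one_pos hx
  have hy3 : ‖y‖ ^ 2 = ‖x‖ ^ 3 := by
    rw [← norm_pow, ← norm_pow]
    have e' : y ^ 2 = x ^ 3 + (W.a₂ * x ^ 2 + W.a₄ * x) := by linear_combination e
    rw [e']
    apply nadd_eq
    refine lt_of_le_of_lt (nadd _ _) (max_lt ?_ ?_)
    · rw [norm_mul, norm_pow, norm_pow]
      calc ‖W.a₂‖ * ‖x‖ ^ 2 ≤ 1 * ‖x‖ ^ 2 := mul_le_mul_of_nonneg_right h2 (by positivity)
        _ < ‖x‖ * ‖x‖ ^ 2 := mul_lt_mul_of_pos_right hx (by positivity)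
        _ = ‖x‖ ^ 3 := by ring
    · rw [norm_mul, norm_pow]
      calc ‖W.a₄‖ * ‖x‖ ≤ 1 * ‖x‖ := mul_le_mul_of_nonneg_right h4 (by positivity)
        _ < ‖x‖ * ‖x‖ := mul_lt_mul_of_pos_right hx (by positivity)
        _ ≤ ‖x‖ * ‖x‖ * ‖x‖ := le_mul_of_one_le_right (by positivity) hx.le
        _ = ‖x‖ ^ 3 := by ring
  have hy0 : y ≠ 0 := by
    rintro rfl
    rw [norm_zero] at hy3
    have : 0 < ‖x‖ ^ 3 := by positivity
    rw [← hy3] at this
    simp at this
  have hneg : W.toAffine.negY x y = -y := by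
    rw [Affine.negY, h1, h3]; ring
  have hy : y ≠ W.toAffine.negY x y := by
    rw [hneg]
    intro h0
    apply hy0
    have : (2 : L2) * y = 0 := by linear_combination h0
    rcases mul_eq_zero.1 this with h5 | h5
    · exact absurd h5 two_ne_zero
    · exact h5
  refine ⟨_, _, _, Affine.Point.add_self_of_Y_ne hy, ?_⟩
  set X := W.toAffine.addX x x (W.toAffine.slope x x y y) with hX
  have hXe : 4 * y ^ 2 * X = (x ^ 2 - W.a₄) ^ 2 := by
    rw [hX, Affine.slope_of_Y_ne rfl hy, Affine.addX, hneg, h1]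
    have h2y : y - -y = 2 * y := by ring
    rw [h2y]
    have h2y0 : (2 : L2) * y ≠ 0 := mul_ne_zero two_ne_zero hy0
    field_simp
    linear_combination 4 * (-(8 * x) - 4 * W.a₂) * e
  have hn := congrArg norm hXe
  rw [norm_mul, norm_mul, norm_pow, norm_pow, norm_four', hy3] at hn
  have hxa : ‖x ^ 2 - W.a₄‖ = ‖x‖ ^ 2 := by
    rw [nsub_eq, norm_pow]
    rw [norm_pow]
    exact lt_of_le_of_lt h4 (one_lt_pow₀ hx (by norm_num))
  rw [hxa] at hn
  have h5 : ‖x‖ ^ 3 * ‖X‖ = ‖x‖ ^ 3 * (4 * ‖x‖) := by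
    linear_combination 4 * hn
  exact mul_left_cancel₀ (by positivity) h5

theorem dp_neg {W : WeierstrassCurve L2} {P : W.toAffine.Point} (hP : Dp P) : Dp (-P) := by
  rcases hP with rfl | ⟨x, y, h, rfl, hx⟩
  · left; exact neg_zero
  · right
    exact ⟨_, _, _, Affine.Point.neg_some h, hx⟩

end TG

open TG

theorem dp_sub (W : WeierstrassCurve L2) (h1 : W.a₁ = 0) (h3 : W.a₃ = 0) (h6 : W.a₆ = 0)
    (h2 : ‖W.a₂‖ ≤ 1) (h4 : ‖W.a₄‖ ≤ 1) (P Q : W.toAffine.Point) (hP : Dp P) (hQ : Dp Q) :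
    Dp (P - Q) := by
  rcases hP with rfl | ⟨x, y, h, rfl, hx⟩
  · rw [zero_sub]
    exact dp_neg hQ
  rcases hQ with rfl | ⟨x', y', h', rfl, hx'⟩
  · rw [sub_zero]
    exact Or.inr ⟨x, y, h, rfl, hx⟩
  by_cases hxx : x = x'
  · rcases Affine.Point.X_eq_iff.1 hxx with h0 | h0
    · left
      rw [h0, sub_self]
    · right
      have h5 : (-Affine.Point.some x' y' h' : W.toAffine.Point) = Affine.Point.some x y h := by
        rw [h0]
      rw [sub_eq_add_neg, h5]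
      obtain ⟨X, Y, H, hH, hn⟩ := double W h1 h3 h6 h2 h4 x y h hx
      refine ⟨X, Y, H, hH, ?_⟩
      rw [hn]
      linarith
  · right
    have hne := addSub_X_ne W h h' hxx
    obtain ⟨X, Y, H, hH⟩ : ∃ (X Y : L2) (H : W.toAffine.Nonsingular X Y),
        (Affine.Point.some x y h + Affine.Point.some x' y' h' : W.toAffine.Point) =
          Affine.Point.some X Y H := ⟨_, _, _, Affine.Point.add_of_X_ne hxx⟩
    obtain ⟨X', Y', H', hH'⟩ : ∃ (X Y : L2) (H : W.toAffine.Nonsingular X Y),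
        (Affine.Point.some x y h - Affine.Point.some x' y' h' : W.toAffine.Point) =
          Affine.Point.some X Y H := by
      rw [sub_eq_add_neg, Affine.Point.neg_some]
      exact ⟨_, _, _, Affine.Point.add_of_X_ne hxx⟩
    rw [hH, hH', Affine.Point.sym2x_some_some] at hne
    refine ⟨X', Y', H', hH', ?_⟩
    obtain ⟨c, hc, hv⟩ := hne
    have v0 := congrFun hv 0
    have v1 := congrFun hv 1
    have v2 := congrFun hv 2
    simp only [asv, eval_addSubMap_zero, eval_addSubMap_one, eval_addSubMap_two,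
      Affine.Point.sym2x_some_some, Matrix.cons_val_zero, Matrix.cons_val_one, Matrix.cons_val,
      b₂, b₄, b₆, b₈, h1, h3, h6, Pi.smul_apply, smul_eq_mul] at v0 v1 v2
    have k2 : c = (x - x') ^ 2 := by linear_combination -v2
    have k0 : c * (X * X') = (x * x' - W.a₄) ^ 2 := by linear_combination -v0
    have k1 : c * (X + X') = 2 * ((x + x') * (x * x' + W.a₄) + 2 * W.a₂ * (x * x')) := by
      linear_combination -v1
    by_contra hcon
    rw [not_lt] at hcon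
    have hx0 : 0 < ‖x‖ := lt_trans one_pos hx
    have hx'0 : 0 < ‖x'‖ := lt_trans one_pos hx'
    have hxx1 : 1 < ‖x‖ * ‖x'‖ := one_lt_mul_of_lt_of_le hx hx'.le
    -- the maximum of the norms is smaller than the product
    have hmax : max ‖x‖ ‖x'‖ < ‖x‖ * ‖x'‖ := by
      apply max_lt
      · exact lt_mul_of_one_lt_right hx0 hx'
      · exact lt_mul_of_one_lt_left hx'0 hx
    have hmax0 : 0 < max ‖x‖ ‖x'‖ := lt_max_of_lt_left hx0
    have hA : ‖(x * x' - W.a₄) ^ 2‖ = (‖x‖ * ‖x'‖) ^ 2 := by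
      rw [norm_pow, nsub_eq, norm_mul]
      rw [norm_mul]
      exact lt_of_le_of_lt h4 hxx1
    have hc2 : ‖c‖ < (‖x‖ * ‖x'‖) ^ 2 := by
      rw [k2, norm_pow]
      have h5 := nsub x x'
      exact pow_lt_pow_left₀ (lt_of_le_of_lt h5 hmax) (norm_nonneg _) (by norm_num)
    have hB : ‖(2 : L2) * ((x + x') * (x * x' + W.a₄) + 2 * W.a₂ * (x * x'))‖ <
        (‖x‖ * ‖x'‖) ^ 2 := by
      rw [norm_mul, norm_two']
      have h5 : ‖(x + x') * (x * x' + W.a₄) + 2 * W.a₂ * (x * x')‖ ≤ (‖x‖ * ‖x'‖) ^ 2 := by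
        refine (nadd _ _).trans (max_le ?_ ?_)
        · rw [norm_mul]
          have h6' : ‖x * x' + W.a₄‖ ≤ ‖x‖ * ‖x'‖ := by
            refine (nadd _ _).trans (max_le (norm_mul _ _).le (h4.trans hxx1.le))
          calc ‖x + x'‖ * ‖x * x' + W.a₄‖ ≤ (‖x‖ * ‖x'‖) * (‖x‖ * ‖x'‖) :=
                mul_le_mul ((nadd _ _).trans hmax.le) h6' (norm_nonneg _) (by positivity)
            _ = _ := by ring
        · rw [norm_mul, norm_mul, norm_mul, norm_two']
          calc 1 / 2 * ‖W.a₂‖ * (‖x‖ * ‖x'‖) ≤ 1 * (‖x‖ * ‖x'‖) := by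
                apply mul_le_mul_of_nonneg_right _ (by positivity)
                linarith
            _ ≤ (‖x‖ * ‖x'‖) * (‖x‖ * ‖x'‖) := mul_le_mul_of_nonneg_right hxx1.le (by positivity)
            _ = _ := by ring
      have h7 : 0 < (‖x‖ * ‖x'‖) ^ 2 := by positivity
      linarith
    have hq : (x * x' - W.a₄) ^ 2 =
        (2 * ((x + x') * (x * x' + W.a₄) + 2 * W.a₂ * (x * x'))) * X' - c * X' ^ 2 := by
      rw [← k0, ← k1]; ring
    have hlt : ‖(x * x' - W.a₄) ^ 2‖ < (‖x‖ * ‖x'‖) ^ 2 := by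
      rw [hq]
      refine lt_of_le_of_lt (nsub _ _) (max_lt ?_ ?_)
      · rw [norm_mul]
        refine lt_of_le_of_lt (mul_le_of_le_one_right (norm_nonneg _) hcon) hB
      · rw [norm_mul, norm_pow]
        refine lt_of_le_of_lt (mul_le_of_le_one_right (norm_nonneg _) ?_) hc2
        exact pow_le_one₀ (norm_nonneg _) hcon
    exact absurd hA hlt.ne

theorem dp_torsionfree (W : WeierstrassCurve L2) (h1 : W.a₁ = 0) (h3 : W.a₃ = 0) (h6 : W.a₆ = 0)
    (h2 : ‖W.a₂‖ ≤ 1) (h4 : ‖W.a₄‖ ≤ 1) (P : W.toAffine.Point) (hP : Dp P)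
    (hfin : IsOfFinAddOrder P) : P = 0 := by
  rcases hP with h0 | ⟨x, y, h, hPe, hx⟩
  · exact h0
  exfalso
  have hx0 : 0 < ‖x‖ := lt_trans one_pos hx
  have key : ∀ n : ℕ, ∃ (X Y : L2) (H : W.toAffine.Nonsingular X Y),
      (2 ^ n) • P = Affine.Point.some X Y H ∧ ‖X‖ = 4 ^ n * ‖x‖ := by
    intro n
    induction n with
    | zero => exact ⟨x, y, h, by rw [pow_zero, one_nsmul, hPe], by rw [pow_zero, one_mul]⟩
    | succ n ih =>
      obtain ⟨X, Y, H, hH, hn⟩ := ih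
      have hX : 1 < ‖X‖ := by
        rw [hn]
        exact lt_of_lt_of_le hx (le_mul_of_one_le_left hx0.le (one_le_pow₀ (by norm_num)))
      obtain ⟨X', Y', H', hH', hn'⟩ := double W h1 h3 h6 h2 h4 X Y H hX
      refine ⟨X', Y', H', ?_, ?_⟩
      · rw [pow_succ, mul_comm, mul_nsmul', two_nsmul, hH, hH']
      · rw [hn', hn]; ring
  have hinj : Function.Injective (fun n : ℕ => (2 ^ n) • P) := by
    intro m n hmn
    simp only at hmn
    obtain ⟨X, Y, H, hH, hn⟩ := key m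
    obtain ⟨X', Y', H', hH', hn'⟩ := key n
    rw [hH, hH'] at hmn
    have hXX : X = X' := by
      injection hmn
    rw [← hXX, hn] at hn'
    have h5 : (4 : ℝ) ^ m = 4 ^ n := mul_right_cancel₀ hx0.ne' hn'
    exact pow_right_injective₀ (by norm_num) (by norm_num) h5
  have hf : (Set.range (fun n : ℕ => (2 ^ n) • P)).Infinite := Set.infinite_range_of_injective hinj
  apply hf
  refine hfin.finite_multiples.subset ?_
  rintro _ ⟨n, rfl⟩
  exact ⟨2 ^ n, rfl⟩

end Pool.Agent.LibIG50
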