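import Pool.Agent.LibIG50.TE
import Pool.Agent.LibIG50.TF

/-!
Towers of Landen isogenies.
-/

open scoped Classical
open WeierstrassCurve Pool.Agent.LibBH2

namespace Pool.Agent.LibIG50

/-- one step up the tower -/
noncomputable def up (κ : Qb) : Qb :=
  (IsAlgClosed.exists_pow_nat_eq (4 * κ / (1 + κ) ^ 2) two_pos).choose

theorem up_sq (κ : Qb) : up κ ^ 2 = 4 * κ / (1 + κ) ^ 2 :=
  (IsAlgClosed.exists_pow_nat_eq (4 * κ / (1 + κ) ^ 2) two_pos).choose_spec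

theorem norm_four : ‖jj 4‖ = 1 / 4 := by
  have : (4 : Qb) = 2 * 2 := by norm_num
  rw [this, map_mul, norm_mul, norm_two]
  norm_num

theorem one_add_ne {κ : Qb} (h : ‖jj (1 + κ)‖ = 1) : 1 + κ ≠ 0 := by
  intro h0
  rw [h0, map_zero, norm_zero] at h
  exact zero_ne_one h

theorem up_eq {κ : Qb} (h : ‖jj (1 + κ)‖ = 1) : up κ ^ 2 * (1 + κ) ^ 2 = 4 * κ := by
  rw [up_sq, div_mul_cancel₀ _ (pow_ne_zero 2 (one_add_ne h))]

theorem up_norm {κ : Qb} (h : ‖jj (1 + κ)‖ = 1) : ‖jj (up κ)‖ ^ 2 = ‖jj κ‖ / 4 := by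
  have h1 := congrArg (fun z => ‖jj z‖) (up_eq h)
  simp only [map_mul, map_pow, norm_mul, norm_pow, norm_four, h] at h1
  rw [one_pow, mul_one] at h1
  rw [h1]; ring

theorem up_ne {κ : Qb} (h : ‖jj (1 + κ)‖ = 1) (h0 : κ ≠ 0) : up κ ≠ 0 := by
  intro h1
  have h2 := up_eq h
  rw [h1, zero_pow two_ne_zero, zero_mul] at h2
  exact h0 (by simpa using h2.symm)

theorem norm_one_add {a : Qb} (ha : ‖jj a‖ < 1) : ‖jj (1 + a)‖ = 1 := by
  rw [map_add, map_one]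
  have h1 : ‖(1 : L2)‖ ≠ ‖jj a‖ := by rw [norm_one]; exact ha.ne'
  rw [IsUltrametricDist.norm_add_eq_max_of_norm_ne_norm h1, norm_one, max_eq_left ha.le]

theorem up_le {κ : Qb} (h : ‖jj (1 + κ)‖ = 1) (h1 : ‖jj κ‖ ≤ 1) : ‖jj (up κ)‖ ≤ 1 / 2 := by
  have h2 := up_norm h
  have h3 : ‖jj (up κ)‖ ^ 2 ≤ (1 / 2) ^ 2 := by rw [h2]; linarith
  exact (abs_le_of_sq_le_sq' h3 (by norm_num)).2

/-- all the side conditions on a parameter -/
def Good (a : Qb) : Prop := a ≠ 0 ∧ a ≠ 1 ∧ a ≠ -1 ∧ ‖jj a‖ ≤ 1 ∧ ‖jj (1 + a)‖ = 1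

theorem good_of {a : Qb} (h0 : a ≠ 0) (h1 : ‖jj a‖ < 1) : Good a := by
  refine ⟨h0, ?_, ?_, h1.le, norm_one_add h1⟩
  · rintro rfl
    rw [map_one, norm_one] at h1
    exact lt_irrefl _ h1
  · rintro rfl
    rw [map_neg, map_one, norm_neg, norm_one] at h1
    exact lt_irrefl _ h1

theorem Good.up_lt {a : Qb} (h : Good a) : ‖jj (up a)‖ < 1 :=
  lt_of_le_of_lt (up_le h.2.2.2.2 h.2.2.2.1) (by norm_num)

theorem Good.up {a : Qb} (h : Good a) : Good (up a) :=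
  good_of (up_ne h.2.2.2.2 h.1) h.up_lt

/-- a tower of Landen isogenies -/
theorem tower_deep (κ : Qb) (hκ : Good κ) (a : ℕ → Qb) (hg : ∀ n, Good (a n))
    (h0 : a 0 ^ 2 * (1 + κ) ^ 2 = 4 * κ) (ha : ∀ n, a (n + 1) ^ 2 * (1 + a n) ^ 2 = 4 * a n)
    (n : ℕ) : ∃ F : (lg (a n ^ 2)).toAffine.Point → (lg (κ ^ 2)).toAffine.Point,
      IsDeep (a n ^ 2) (κ ^ 2)
        ((1 + κ) ^ 2 / 4 * ∏ i ∈ Finset.range n, ((1 + a i) ^ 2 / 4)) F := by
  induction n with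
  | zero =>
    obtain ⟨F, hF⟩ := lan_deep κ (a 0) hκ.1 hκ.2.1 hκ.2.2.1 hκ.2.2.2.1 hκ.2.2.2.2 h0
    refine ⟨F, ?_⟩
    rw [Finset.prod_range_zero, mul_one]
    exact hF
  | succ n ih =>
    obtain ⟨F, hF⟩ := ih
    obtain ⟨G, hG⟩ := lan_deep (a n) (a (n + 1)) (hg n).1 (hg n).2.1 (hg n).2.2.1 (hg n).2.2.2.1
      (hg n).2.2.2.2 (ha n)
    refine ⟨F ∘ G, ?_⟩
    have h1 := hF.comp hG
    rw [mul_assoc, ← Finset.prod_range_succ] at h1
    exact h1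

theorem iter_good {κ : Qb} (h : Good κ) (n : ℕ) : Good (up^[n] κ) := by
  induction n with
  | zero => exact h
  | succ n ih => rw [Function.iterate_succ_apply']; exact ih.up

/-- going up the tower, the parameter reaches the region `1/8 ≤ |κ| ≤ 1/2` -/
theorem base_tower (κ : Qb) (hκ : Good κ) : ∃ (κ' C : Qb)
    (f : (lg (κ' ^ 2)).toAffine.Point → (lg (κ ^ 2)).toAffine.Point),
      IsDeep (κ' ^ 2) (κ ^ 2) C f ∧ κ' ≠ 0 ∧ 1 / 8 ≤ ‖jj κ'‖ ∧ ‖jj κ'‖ ≤ 1 / 2 := by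
  have hex : ∃ n, 1 / 8 ≤ ‖jj (up^[n] (up κ))‖ := by
    by_contra hcon
    push Not at hcon
    have hrec : ∀ n, (4 * ‖jj (up^[n + 1] (up κ))‖) ^ 2 = 4 * ‖jj (up^[n] (up κ))‖ := by
      intro n
      rw [Function.iterate_succ_apply', mul_pow, up_norm (iter_good hκ.up n).2.2.2.2]
      ring
    have hpow : ∀ n, (4 * ‖jj (up^[n] (up κ))‖) ^ (2 ^ n) = 4 * ‖jj (up κ)‖ := by
      intro n
      induction n with
      | zero => simp
      | succ n ih => rw [pow_succ' 2 n, pow_mul, hrec, ih]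
    have hpos : 0 < 4 * ‖jj (up κ)‖ := by
      have : 0 < ‖jj (up κ)‖ := norm_pos_iff.2 ((map_ne_zero jj).2 hκ.up.1)
      linarith
    obtain ⟨n, hn⟩ := exists_pow_lt_of_lt_one hpos (show (1 / 2 : ℝ) < 1 by norm_num)
    have h1 : (4 * ‖jj (up^[n] (up κ))‖) ^ (2 ^ n) ≤ (1 / 2 : ℝ) ^ (2 ^ n) := by
      apply pow_le_pow_left₀ (by positivity)
      have := hcon n
      linarith
    have h2 : (1 / 2 : ℝ) ^ (2 ^ n) ≤ (1 / 2) ^ n :=
      pow_le_pow_of_le_one (by norm_num) (by norm_num) Nat.lt_two_pow_self.le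
    rw [hpow n] at h1
    linarith
  obtain ⟨n, hn⟩ := hex
  obtain ⟨F, hF⟩ := tower_deep κ hκ (fun n => up^[n] (up κ)) (iter_good hκ.up)
    (up_eq hκ.2.2.2.2) (fun n => by
      change (up^[n + 1] (up κ)) ^ 2 * _ = _
      rw [Function.iterate_succ_apply']
      exact up_eq (iter_good hκ.up n).2.2.2.2) n
  refine ⟨_, _, F, hF, (iter_good hκ.up n).1, hn, ?_⟩
  cases n with
  | zero => exact up_le hκ.2.2.2.2 hκ.2.2.2.1
  | succ n =>
    change ‖jj (up^[n + 1] (up κ))‖ ≤ 1 / 2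
    rw [Function.iterate_succ_apply']
    exact up_le (iter_good hκ.up n).2.2.2.2 (iter_good hκ.up n).2.2.2.1

/-- two towers whose constants are 2-adically close, but not too close -/
theorem two_towers (κ : Qb) (h0 : κ ≠ 0) (hlo : 1 / 8 ≤ ‖jj κ‖) (hhi : ‖jj κ‖ ≤ 1 / 2) :
    ∃ ω : ℝ, 1 / 4 < ω ∧ ω < 1 ∧ ∀ n : ℕ, ∃ (a b A B : Qb)
      (F : (lg (a ^ 2)).toAffine.Point → (lg (κ ^ 2)).toAffine.Point)
      (G : (lg (b ^ 2)).toAffine.Point → (lg (κ ^ 2)).toAffine.Point),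
      Good a ∧ Good b ∧ IsDeep (a ^ 2) (κ ^ 2) A F ∧ IsDeep (b ^ 2) (κ ^ 2) B G ∧
      (8 * ‖jj (A / B - 1)‖) ^ (2 ^ n) = ω := by
  have hκ : Good κ := good_of h0 (lt_of_le_of_lt hhi (by norm_num))
  have hω : (2 * ‖jj (up κ)‖) ^ 2 = ‖jj κ‖ := by
    rw [mul_pow, up_norm hκ.2.2.2.2]; ring
  have hnn : 0 ≤ ‖jj (up κ)‖ := norm_nonneg _
  have hneg : Good (- up κ) := good_of (neg_ne_zero.2 hκ.up.1) (by
    rw [map_neg, norm_neg]; exact hκ.up_lt)
  refine ⟨2 * ‖jj (up κ)‖, by nlinarith, by nlinarith, fun n => ?_⟩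
  set a : ℕ → Qb := fun n => up^[n] (up κ) with ha
  set b : ℕ → Qb := fun n => up^[n] (- up κ) with hb
  have hga : ∀ n, Good (a n) := iter_good hκ.up
  have hgb : ∀ n, Good (b n) := iter_good hneg
  have hra : ∀ n, a (n + 1) ^ 2 * (1 + a n) ^ 2 = 4 * a n := fun n => by
    simp only [ha]
    rw [Function.iterate_succ_apply']
    exact up_eq (iter_good hκ.up n).2.2.2.2
  have hrb : ∀ n, b (n + 1) ^ 2 * (1 + b n) ^ 2 = 4 * b n := fun n => by
    simp only [hb]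
    rw [Function.iterate_succ_apply']
    exact up_eq (iter_good hneg n).2.2.2.2
  obtain ⟨F, hF⟩ := tower_deep κ hκ a hga (up_eq hκ.2.2.2.2) hra (n + 1)
  obtain ⟨G, hG⟩ := tower_deep κ hκ b hgb (by
    simp only [hb, Function.iterate_zero, id_eq, neg_sq]
    exact up_eq hκ.2.2.2.2) hrb (n + 1)
  refine ⟨_, _, _, _, F, G, hga _, hgb _, hF, hG, ?_⟩
  have key := tower_norm (L := L2) (by
      have := norm_two
      rwa [map_ofNat] at this) (fun n => jj (a n)) (fun n => jj (b n)) (by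
      simp only [ha, hb, Function.iterate_zero, id_eq, map_neg])
    (norm_pos_iff.2 ((map_ne_zero jj).2 (hga 0).1)) (by
      change ‖jj (up κ)‖ < 1 / 2
      nlinarith)
    (fun n => by
      have := congrArg jj (hra n)
      simpa only [map_mul, map_pow, map_add, map_one, map_ofNat] using this)
    (fun n => by
      have := congrArg jj (hrb n)
      simpa only [map_mul, map_pow, map_add, map_one, map_ofNat] using this) n
  have h1 : (1 + κ) ^ 2 / 4 ≠ 0 := div_ne_zero (pow_ne_zero 2 (one_add_ne hκ.2.2.2.2)) (by norm_num)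
  rw [mul_div_mul_left _ _ h1, ← Finset.prod_div_distrib]
  have h2 : ∀ i ∈ Finset.range (n + 1), (1 + a i) ^ 2 / 4 / ((1 + b i) ^ 2 / 4) =
      ((1 + a i) / (1 + b i)) ^ 2 := fun i _ => by
    rw [div_div_div_cancel_right₀ (by norm_num), div_pow]
  rw [Finset.prod_congr rfl h2, map_sub, map_prod, map_one]
  simp only [map_pow, map_div₀, map_add, map_one]
  exact key

end Pool.Agent.LibIG50
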